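import Pool.Agent.Lib.MP_e81270_lc_Space.Enum

/-!
# Counting the bad CNFs
-/

namespace Pool.Agent.MP_e81270_lc.Space

open Finset

theorem card_bad {n w m s R Dd M : ℕ} {θ p : ℝ}
    (hH : ∀ A : Finset (Fin n → Bool), (2 : ℝ) ^ n ≤ A.card * 2 ^ Dd →
      ((heavy w θ A).card : ℝ) ≤ Fintype.card (Clause n w) * p) :
    ((Nat.card {F : Fin m → Clause n w // ¬ Good n w m s R Dd M θ F} : ℕ) : ℝ) * 4 ^ (M + 1) ≤
      (((2 * (n + s + 2) ^ (2 * s)) ^ (2 * R + 1) : ℕ) : ℝ) *
        ((Fintype.card (Clause n w) : ℝ) ^ m * Real.exp (3 * p * m)) := by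
  classical
  set E : ℕ := (n + s + 2) ^ (2 * s) with hE
  set T : ℝ := (Fintype.card (Clause n w) : ℝ) with hT
  have hT0 : 0 ≤ T := by positivity
  -- the index set
  let I : Finset ℕ := range (R + 1)
  have h1 : Nat.card {F : Fin m → Clause n w // ¬ Good n w m s R Dd M θ F} ≤
      (I.biUnion fun i => ((gen (family n s) i).filter
        fun A => (2 : ℝ) ^ n ≤ A.card * 2 ^ Dd).biUnion fun A =>
          univ.filter fun F : Fin m → Clause n w => M + 1 ≤ hits (heavy w θ A) F).card := by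
    rw [Nat.card_eq_fintype_card, Fintype.card_subtype]
    apply card_le_card
    intro F hF
    simp only [mem_filter, mem_univ, true_and, Good] at hF
    push Not at hF
    obtain ⟨q, hq, A, hA, hAd, hh⟩ := hF
    simp only [mem_biUnion, mem_filter, mem_univ, true_and]
    exact ⟨q, mem_range.2 (by omega), A, ⟨hA, hAd⟩, hh⟩
  have h2 : ∀ A : Finset (Fin n → Bool), (2 : ℝ) ^ n ≤ A.card * 2 ^ Dd →
      ((univ.filter fun F : Fin m → Clause n w => M + 1 ≤ hits (heavy w θ A) F).card : ℝ) *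
        4 ^ (M + 1) ≤ T ^ m * Real.exp (3 * p * m) := by
    intro A hA
    refine (card_hits (heavy w θ A)).trans ?_
    have h4 : ((heavy w θ A).card : ℝ) ≤ T * p := hH A hA
    have h6 : (T + 3 * ((heavy w θ A).card : ℝ)) ^ m ≤ (T * Real.exp (3 * p)) ^ m := by
      apply pow_le_pow_left₀ (by positivity)
      have h7 := Real.add_one_le_exp (3 * p)
      nlinarith
    refine h6.trans (le_of_eq ?_)
    rw [mul_pow, ← Real.exp_nat_mul]
    congr 2
    ring
  have h3 : ((Nat.card {F : Fin m → Clause n w // ¬ Good n w m s R Dd M θ F} : ℕ) : ℝ) ≤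
      ∑ i ∈ I, ∑ A ∈ (gen (family n s) i).filter
        (fun A => (2 : ℝ) ^ n ≤ A.card * 2 ^ Dd),
          ((univ.filter fun F : Fin m → Clause n w => M + 1 ≤ hits (heavy w θ A) F).card : ℝ) := by
    have h4 : Nat.card {F : Fin m → Clause n w // ¬ Good n w m s R Dd M θ F} ≤
        ∑ i ∈ I, ∑ A ∈ (gen (family n s) i).filter
          (fun A => (2 : ℝ) ^ n ≤ A.card * 2 ^ Dd),
            (univ.filter fun F : Fin m → Clause n w => M + 1 ≤ hits (heavy w θ A) F).card := by
      refine h1.trans (card_biUnion_le.trans ?_)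
      exact Finset.sum_le_sum fun i _ => card_biUnion_le
    exact_mod_cast h4
  have h5 : ((Nat.card {F : Fin m → Clause n w // ¬ Good n w m s R Dd M θ F} : ℕ) : ℝ) *
      4 ^ (M + 1) ≤ ∑ i ∈ I, ∑ _A ∈ (gen (family n s) i).filter
        (fun A => (2 : ℝ) ^ n ≤ A.card * 2 ^ Dd), T ^ m * Real.exp (3 * p * m) := by
    refine (mul_le_mul_of_nonneg_right h3 (by positivity)).trans ?_
    rw [Finset.sum_mul]
    apply Finset.sum_le_sum
    intro i _
    rw [Finset.sum_mul]
    apply Finset.sum_le_sum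
    intro A hA
    exact h2 A (mem_filter.1 hA).2
  refine h5.trans ?_
  have h6 : ∀ i ∈ I, (∑ _A ∈ (gen (family n s) i).filter
        (fun A => (2 : ℝ) ^ n ≤ A.card * 2 ^ Dd), T ^ m * Real.exp (3 * p * m)) ≤
      (((2 * E) ^ R : ℕ) : ℝ) * (T ^ m * Real.exp (3 * p * m)) := by
    intro i hi
    rw [Finset.sum_const, nsmul_eq_mul]
    refine mul_le_mul_of_nonneg_right ?_ (by positivity)
    have h7 : ((gen (family n s) i).filter
        (fun A => (2 : ℝ) ^ n ≤ A.card * 2 ^ Dd)).card ≤ (2 * E) ^ R := by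
      refine (card_filter_le _ _).trans ((card_gen _ _).trans ?_)
      have hi2 : i ≤ R := by
        have := mem_range.1 hi
        omega
      have hE1 : 1 ≤ E := Nat.one_le_pow _ _ (by omega)
      calc (2 * (family n s).card) ^ i ≤ (2 * E) ^ i :=
            Nat.pow_le_pow_left (Nat.mul_le_mul_left 2 (card_family n s)) _
        _ ≤ (2 * E) ^ R := Nat.pow_le_pow_right (by omega) hi2
    exact_mod_cast h7
  refine (Finset.sum_le_sum h6).trans ?_
  rw [Finset.sum_const, nsmul_eq_mul, ← mul_assoc]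
  refine mul_le_mul_of_nonneg_right ?_ (by positivity)
  have h8 : I.card * (2 * E) ^ R ≤ (2 * E) ^ (2 * R + 1) := by
    have hE1 : 1 ≤ E := Nat.one_le_pow _ _ (by omega)
    have h9 : I.card ≤ E * (R + 1) := by
      rw [card_range]
      exact Nat.le_mul_of_pos_left _ (by omega)
    have h10 : R + 1 ≤ (2 * E) ^ R :=
      (Nat.lt_two_pow_self (n := R)).trans_le (Nat.pow_le_pow_left (by omega) R)
    calc I.card * (2 * E) ^ R ≤ (E * (R + 1)) * (2 * E) ^ R := Nat.mul_le_mul_right _ h9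
      _ ≤ ((2 * E) * (2 * E) ^ R) * (2 * E) ^ R := by
          apply Nat.mul_le_mul_right
          exact Nat.mul_le_mul (by omega) h10
      _ = (2 * E) ^ (2 * R + 1) := by ring
  exact_mod_cast h8

end Pool.Agent.MP_e81270_lc.Space
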