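import Mathlib

/-!
# MP_e81270_lc: Extended Frege refutations with bounded space, definitions
-/

namespace Pool.Agent.MP_e81270_lc.Space

/-- Propositional formulas built from variables `v : ℕ` with `¬` and `→`. -/
inductive Fml : Type
  | var (v : ℕ) : Fml
  | neg (A : Fml) : Fml
  | imp (A B : Fml) : Fml

namespace Fml

/-- The number of symbols (occurrences of variables and of connectives) of a formula. -/
def size : Fml → ℕ
  | var _ => 1
  | neg A => A.size + 1
  | imp A B => A.size + B.size + 1

/-- The truth value of a formula at the assignment `v`. -/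
def eval (v : ℕ → Bool) : Fml → Bool
  | var i => v i
  | neg A => !(A.eval v)
  | imp A B => !(A.eval v) || B.eval v

/-- The variables occurring in a formula. -/
def vars : Fml → Finset ℕ
  | var i => {i}
  | neg A => A.vars
  | imp A B => A.vars ∪ B.vars

/-- `A ↔ B`, as the abbreviation `¬ ((A → B) → ¬ (B → A))`. -/
def iff (A B : Fml) : Fml := neg (imp (imp A B) (neg (imp B A)))

end Fml

/-- The total number of symbols of a list of formulas. -/
def space (M : List Fml) : ℕ := (M.map Fml.size).sum

/-- The assignment `v` satisfies all formulas of the list `M`. -/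
def Sat (v : ℕ → Bool) (M : List Fml) : Prop := ∀ A ∈ M, A.eval v = true

/-- A clause of width `w` in the variables `0, …, n - 1`: the `j`-th literal is at the variable
`C.1 j` (these variables are distinct), and `C.2 j` is the value of this variable which makes the
literal true. -/
abbrev Clause (n w : ℕ) : Type := (Fin w ↪ Fin n) × (Fin w → Bool)

/-- The assignment `v` satisfies the clause `C`. -/
def Holds {n w : ℕ} (v : ℕ → Bool) (C : Clause n w) : Prop := ∃ j, v (C.1 j) = C.2 j

/-- The CNF with the `m` clauses `F 0, …, F (m - 1)` is unsatisfiable. -/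
def Unsat {n w m : ℕ} (F : Fin m → Clause n w) : Prop := ∀ v : ℕ → Bool, ∃ i, ¬ Holds v (F i)

/-- Inference: every formula of the new memory `M'` is implied by the old memory `M` and at most
`s` clauses of `F`. -/
def Infer {n w m : ℕ} (F : Fin m → Clause n w) (s : ℕ) (M M' : List Fml) : Prop :=
  ∃ S : Finset (Fin m), S.card ≤ s ∧
    ∀ v, Sat v M → (∀ i ∈ S, Holds v (F i)) → Sat v M'

/-- The extension rule: the formula `q ↔ D` may be written in memory, for any formula `D` and any
variable `q` which is not among the variables `0, …, n - 1` of the CNF and does not occur in `D`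
or in the memory `M`. -/
def Extend (n : ℕ) (M M' : List Fml) : Prop :=
  ∃ (q : ℕ) (D : Fml), n ≤ q ∧ q ∉ D.vars ∧ (∀ A ∈ M, q ∉ A.vars) ∧
    ∀ A ∈ M', A ∈ M ∨ A = Fml.iff (Fml.var q) D

/-- `M 0, …, M L` is an Extended Frege refutation (with semantic inferences) of the CNF `F` with
`L` steps in space `s`: `M t` is the list of the formulas in memory at time `t`, these formulas
have together at most `s` symbols, the memory is empty at time `0` and contradictory at time `L`,
and each step is an inference or an application of the extension rule. -/
structure IsRefutation {n w m : ℕ} (F : Fin m → Clause n w) (s L : ℕ) (M : ℕ → List Fml) :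
    Prop where
  start : M 0 = []
  final : ∀ v, ¬ Sat v (M L)
  space_le : ∀ t ≤ L, space (M t) ≤ s
  step : ∀ t < L, Infer F s (M t) (M (t + 1)) ∨ Extend n (M t) (M (t + 1))

end Pool.Agent.MP_e81270_lc.Space
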