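import Pool.Agent.Lib.MP_e81270_lc_Space.Random

/-!
# The descent: a short sequence of memories forces a set with many heavy clauses
-/

namespace Pool.Agent.MP_e81270_lc.Space

open Finset

/-- the sets obtained from the full set by intersecting `r` times with a member of `𝒬` or with the
complement of a member of `𝒬` -/
def gen {n : ℕ} (𝒬 : Finset (Finset (Fin n → Bool))) : ℕ → Finset (Finset (Fin n → Bool))
  | 0 => {univ}
  | r + 1 => ((gen 𝒬 r) ×ˢ 𝒬).image (fun p => p.1 ∩ p.2) ∪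
      ((gen 𝒬 r) ×ˢ 𝒬).image (fun p => p.1 \ p.2)

theorem card_gen {n : ℕ} (𝒬 : Finset (Finset (Fin n → Bool))) (r : ℕ) :
    (gen 𝒬 r).card ≤ (2 * 𝒬.card) ^ r := by
  induction r with
  | zero => simp [gen]
  | succ r ih =>
    rw [gen, pow_succ]
    refine (card_union_le _ _).trans ?_
    have h1 := card_image_le (s := (gen 𝒬 r) ×ˢ 𝒬) (f := fun p => p.1 ∩ p.2)
    have h2 := card_image_le (s := (gen 𝒬 r) ×ˢ 𝒬) (f := fun p => p.1 \ p.2)
    rw [card_product] at h1 h2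
    nlinarith

theorem inter_mem_gen {n : ℕ} {𝒬 : Finset (Finset (Fin n → Bool))} {r : ℕ}
    {A B : Finset (Fin n → Bool)} (hA : A ∈ gen 𝒬 r) (hB : B ∈ 𝒬) : A ∩ B ∈ gen 𝒬 (r + 1) := by
  rw [gen]
  exact mem_union_left _ (mem_image.2 ⟨(A, B), mem_product.2 ⟨hA, hB⟩, rfl⟩)

theorem sdiff_mem_gen {n : ℕ} {𝒬 : Finset (Finset (Fin n → Bool))} {r : ℕ}
    {A B : Finset (Fin n → Bool)} (hA : A ∈ gen 𝒬 r) (hB : B ∈ 𝒬) : A \ B ∈ gen 𝒬 (r + 1) := by
  rw [gen]
  exact mem_union_right _ (mem_image.2 ⟨(A, B), mem_product.2 ⟨hA, hB⟩, rfl⟩)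

/-- the points of `A` which falsify no clause of `F` that is heavy for `A` -/
noncomputable def unex {n w m : ℕ} (θ : ℝ) (F : Fin m → Clause n w) (A : Finset (Fin n → Bool)) :
    Finset (Fin n → Bool) := by
  classical
  exact A.filter fun x => ∀ i, F i ∈ heavy w θ A → ¬ Fals (F i) x

theorem mem_unex {n w m : ℕ} {θ : ℝ} {F : Fin m → Clause n w} {A : Finset (Fin n → Bool)}
    {x : Fin n → Bool} :
    x ∈ unex θ F A ↔ x ∈ A ∧ ∀ i, F i ∈ heavy w θ A → ¬ Fals (F i) x := by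
  classical
  simp [unex]

theorem unex_subset {n w m : ℕ} (θ : ℝ) (F : Fin m → Clause n w) (A : Finset (Fin n → Bool)) :
    unex θ F A ⊆ A := fun _ hx => (mem_unex.1 hx).1

theorem light_bound {n w m : ℕ} {θ : ℝ} {F : Fin m → Clause n w} {A B : Finset (Fin n → Bool)}
    (S : Finset (Fin m)) (hS : ∀ i ∈ S, F i ∉ heavy w θ A)
    (hB : ∀ x ∈ B, x ∈ A ∧ ∃ i ∈ S, Fals (F i) x) :
    (B.card : ℝ) ≤ S.card * (θ * A.card) := by
  classical
  have h1 : B ⊆ S.biUnion fun i => cut A (F i) := by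
    intro x hx
    obtain ⟨hA, i, hi, hf⟩ := hB x hx
    rw [mem_biUnion]
    exact ⟨i, hi, mem_filter.2 ⟨hA, hf⟩⟩
  have h2 : B.card ≤ ∑ i ∈ S, (cut A (F i)).card := (card_le_card h1).trans card_biUnion_le
  have h3 : (B.card : ℝ) ≤ ∑ i ∈ S, ((cut A (F i)).card : ℝ) := by exact_mod_cast h2
  refine h3.trans ?_
  rw [← nsmul_eq_mul, ← Finset.sum_const]
  apply Finset.sum_le_sum
  intro i hi
  have := hS i hi
  rw [mem_heavy, not_le] at this
  exact this.le

theorem unex_inter_le {n w m M : ℕ} {θ : ℝ} {F : Fin m → Clause n w}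
    {A B : Finset (Fin n → Bool)} (hBA : B ⊆ A) (hM : hits (heavy w θ B) F ≤ M) (hθ : 0 ≤ θ) :
    (((unex θ F A) ∩ B).card : ℝ) ≤ (unex θ F B).card + M * (θ * A.card) := by
  classical
  have h1 : ((unex θ F A) ∩ B) ⊆ unex θ F B ∪ (((unex θ F A) ∩ B) \ unex θ F B) := by
    intro x hx
    by_cases h : x ∈ unex θ F B
    · exact mem_union_left _ h
    · exact mem_union_right _ (mem_sdiff.2 ⟨hx, h⟩)
  have h2 : (((unex θ F A) ∩ B).card : ℝ) ≤
      (unex θ F B).card + ((((unex θ F A) ∩ B) \ unex θ F B).card : ℝ) := by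
    exact_mod_cast (card_le_card h1).trans (card_union_le _ _)
  refine h2.trans ?_
  have h3 := light_bound (θ := θ) (F := F) (A := A) (B := ((unex θ F A) ∩ B) \ unex θ F B)
    (univ.filter fun i => F i ∈ heavy w θ B ∧ F i ∉ heavy w θ A)
    (by intro i hi; exact (mem_filter.1 hi).2.2)
    (by
      intro x hx
      rw [mem_sdiff, mem_inter] at hx
      obtain ⟨⟨hxA, hxB⟩, hxn⟩ := hx
      refine ⟨hBA hxB, ?_⟩
      rw [mem_unex] at hxn hxA
      push Not at hxn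
      obtain ⟨i, hi, hf⟩ := hxn hxB
      refine ⟨i, mem_filter.2 ⟨mem_univ _, hi, fun h => hxA.2 i h hf⟩, hf⟩)
  have h4 : ((univ.filter fun i => F i ∈ heavy w θ B ∧ F i ∉ heavy w θ A).card : ℝ) ≤ M := by
    have : (univ.filter fun i => F i ∈ heavy w θ B ∧ F i ∉ heavy w θ A).card ≤ M := by
      refine le_trans (card_le_card ?_) hM
      intro i hi
      rw [mem_filter] at hi ⊢
      exact ⟨hi.1, hi.2.1⟩
    exact_mod_cast this
  have h5 : (0 : ℝ) ≤ θ * A.card := by positivity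
  nlinarith [mul_le_mul_of_nonneg_right h4 h5]

theorem descent {n w m s M R L : ℕ} {θ ε β : ℝ} (hθ : 0 ≤ θ) (hβ : 0 ≤ β)
    (F : Fin m → Clause n w) (𝒬 : Finset (Finset (Fin n → Bool)))
    (hgood : ∀ q ≤ R, ∀ A ∈ gen 𝒬 q, β ≤ A.card → hits (heavy w θ A) F ≤ M)
    (hM : M * θ ≤ ε) (hs : s * θ ≤ ε)
    (Q : ℕ → Finset (Fin n → Bool)) (hQ : ∀ t ≤ L, Q t ∈ 𝒬)
    (hstep : ∀ t < L, ∃ S : Finset (Fin m), S.card ≤ s ∧
      ∀ x ∈ Q t, x ∉ Q (t + 1) → ∃ i ∈ S, Fals (F i) x) :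
    ∀ r q i j, q + r ≤ R → i < j → j ≤ L → j - i ≤ 2 ^ r → ∀ A ∈ gen 𝒬 q, A ⊆ Q i →
      (∀ x ∈ A, x ∉ Q j) →
      ((unex θ F A).card : ℝ) ≤ 2 ^ r * β + (2 * r + 1) * ε * A.card := by
  classical
  have hε : 0 ≤ ε := le_trans (by positivity) hM
  have hleaf : ∀ r i j, j = i + 1 → j ≤ L → ∀ A : Finset (Fin n → Bool), A ⊆ Q i →
      (∀ x ∈ A, x ∉ Q j) →
      ((unex θ F A).card : ℝ) ≤ 2 ^ r * β + (2 * (r : ℕ) + 1) * ε * A.card := by
    rintro r i j rfl hj A hA hA'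
    obtain ⟨S, hS, hSF⟩ := hstep i (by omega)
    have h1 := light_bound (θ := θ) (F := F) (A := A) (B := unex θ F A)
      (S.filter fun i => F i ∉ heavy w θ A) (by intro i hi; exact (mem_filter.1 hi).2)
      (by
        intro x hx
        rw [mem_unex] at hx
        refine ⟨hx.1, ?_⟩
        obtain ⟨k, hk, hf⟩ := hSF x (hA hx.1) (hA' x hx.1)
        exact ⟨k, mem_filter.2 ⟨hk, fun h => hx.2 k h hf⟩, hf⟩)
    have h2 : ((S.filter fun i => F i ∉ heavy w θ A).card : ℝ) ≤ s := by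
      exact_mod_cast (card_filter_le _ _).trans hS
    have h3 : (0 : ℝ) ≤ θ * A.card := by positivity
    have h4 : ((unex θ F A).card : ℝ) ≤ ε * A.card := by
      calc ((unex θ F A).card : ℝ) ≤ s * (θ * A.card) :=
            h1.trans (mul_le_mul_of_nonneg_right h2 h3)
        _ = (s * θ) * A.card := by ring
        _ ≤ ε * A.card := mul_le_mul_of_nonneg_right hs (by positivity)
    have h5 : (0 : ℝ) ≤ 2 ^ r * β := by positivity
    have h6 : (0 : ℝ) ≤ 2 * (r : ℕ) * (ε * A.card) := by positivity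
    nlinarith
  intro r
  induction r with
  | zero =>
    intro q i j _ hij hj hji A _ hAi hAj
    have : j = i + 1 := by rw [pow_zero] at hji; omega
    exact_mod_cast hleaf 0 i j this hj A hAi hAj
  | succ r ih =>
    intro q i j hq hij hj hji A hA hAi hAj
    by_cases hj1 : j = i + 1
    · exact_mod_cast hleaf (r + 1) i j hj1 hj A hAi hAj
    have h2r : 0 < 2 ^ r := by positivity
    rw [pow_succ] at hji
    obtain ⟨k, hik, hkj, hk1, hk2⟩ : ∃ k, i < k ∧ k < j ∧ k - i ≤ 2 ^ r ∧ j - k ≤ 2 ^ r := by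
      refine ⟨i + (j - i) / 2, ?_, ?_, ?_, ?_⟩ <;> omega
    have hkL : k ≤ L := by omega
    have hpart : ∀ B : Finset (Fin n → Bool), B ⊆ A → B ∈ gen 𝒬 (q + 1) →
        ((unex θ F B).card : ℝ) ≤ 2 ^ r * β + (2 * r + 1) * ε * B.card →
        (((unex θ F A) ∩ B).card : ℝ) ≤ 2 ^ r * β + (2 * r + 1) * ε * B.card + ε * A.card := by
      intro B hBA hB hBU
      by_cases hBβ : β ≤ B.card
      · have h1 := unex_inter_le (w := w) (F := F) hBA (hgood (q + 1) (by omega) B hB hBβ) hθ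
        have h2 : (M : ℝ) * (θ * A.card) ≤ ε * A.card := by
          rw [← mul_assoc]
          exact mul_le_mul_of_nonneg_right hM (by positivity)
        linarith
      · push Not at hBβ
        have h1 : (((unex θ F A) ∩ B).card : ℝ) ≤ B.card := by
          exact_mod_cast card_le_card inter_subset_right
        have h2 : (1 : ℝ) ≤ 2 ^ r := one_le_pow₀ (by norm_num)
        have h3 : β ≤ 2 ^ r * β := by nlinarith
        have h4 : (0 : ℝ) ≤ (2 * r + 1) * ε * B.card := by positivity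
        have h5 : (0 : ℝ) ≤ ε * A.card := by positivity
        linarith
    have hA0 := hpart (A ∩ Q k) inter_subset_left (inter_mem_gen hA (hQ k hkL))
      (ih (q + 1) k j (by omega) hkj hj hk2 _ (inter_mem_gen hA (hQ k hkL)) inter_subset_right
        (fun x hx => hAj x (mem_inter.1 hx).1))
    have hA1 := hpart (A \ Q k) sdiff_subset (sdiff_mem_gen hA (hQ k hkL))
      (ih (q + 1) i k (by omega) hik hkL hk1 _ (sdiff_mem_gen hA (hQ k hkL))
        (sdiff_subset.trans hAi) (fun x hx => (mem_sdiff.1 hx).2))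
    have hcard : ((A ∩ Q k).card : ℝ) + ((A \ Q k).card : ℝ) = A.card := by
      exact_mod_cast card_inter_add_card_sdiff A (Q k)
    have hU : ((unex θ F A).card : ℝ) ≤
        (((unex θ F A) ∩ (A ∩ Q k)).card : ℝ) + (((unex θ F A) ∩ (A \ Q k)).card : ℝ) := by
      have : unex θ F A ⊆ ((unex θ F A) ∩ (A ∩ Q k)) ∪ ((unex θ F A) ∩ (A \ Q k)) := by
        intro x hx
        have hxA := unex_subset θ F A hx
        by_cases hxQ : x ∈ Q k
        · exact mem_union_left _ (mem_inter.2 ⟨hx, mem_inter.2 ⟨hxA, hxQ⟩⟩)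
        · exact mem_union_right _ (mem_inter.2 ⟨hx, mem_sdiff.2 ⟨hxA, hxQ⟩⟩)
      exact_mod_cast (card_le_card this).trans (card_union_le _ _)
    rw [pow_succ]
    push_cast
    have h7 : (2 * (r : ℝ) + 1) * ε * ((A ∩ Q k).card : ℝ) +
        (2 * (r : ℝ) + 1) * ε * ((A \ Q k).card : ℝ) = (2 * (r : ℝ) + 1) * ε * A.card := by
      rw [← mul_add, hcard]
    linarith

/-- the conclusion of the descent -/
theorem no_short {n w m s M R L D : ℕ} {θ ε : ℝ} (hθ : 0 < θ)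
    (F : Fin m → Clause n w) (𝒬 : Finset (Finset (Fin n → Bool)))
    (hgood : ∀ q ≤ R, ∀ A ∈ gen 𝒬 q, (2 : ℝ) ^ n ≤ A.card * 2 ^ D → hits (heavy w θ A) F ≤ M)
    (hM : M * θ ≤ ε) (hs : s * θ ≤ ε) (hw : 1 < θ * 2 ^ w) (hRD : R + 2 ≤ D)
    (hRε : (2 * R + 1) * ε ≤ 1 / 4)
    (Q : ℕ → Finset (Fin n → Bool)) (hQ : ∀ t ≤ L, Q t ∈ 𝒬)
    (hQ0 : Q 0 = univ) (hQL : Q L = ∅)
    (hstep : ∀ t < L, ∃ S : Finset (Fin m), S.card ≤ s ∧
      ∀ x ∈ Q t, x ∉ Q (t + 1) → ∃ i ∈ S, Fals (F i) x) :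
    2 ^ R < L := by
  classical
  by_contra hL
  push Not at hL
  have hL0 : 0 < L := by
    rcases Nat.eq_zero_or_pos L with h | h
    · subst h
      rw [hQ0] at hQL
      exact absurd hQL (univ_nonempty).ne_empty
    · exact h
  have h2D : (0 : ℝ) < 2 ^ D := by positivity
  have h1 := descent (θ := θ) (ε := ε) (β := 2 ^ n / 2 ^ D) (M := M) (s := s) (R := R) (L := L)
    hθ.le (by positivity) F 𝒬
    (by
      intro q hq A hA hb
      refine hgood q hq A hA ?_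
      rwa [div_le_iff₀ h2D] at hb)
    hM hs Q hQ hstep R 0 0 L (by omega) hL0 le_rfl (by simpa using hL) univ (by simp [gen])
    (by rw [hQ0]) (by intro x _; rw [hQL]; simp)
  have h2 : unex θ F (univ : Finset (Fin n → Bool)) = univ := by
    ext x
    rw [mem_unex]
    simp only [mem_univ, true_and, iff_true]
    intro i hi
    exfalso
    rw [mem_heavy] at hi
    have h3 := card_cut_univ (F i)
    have h4 : ((cut univ (F i)).card : ℝ) * 2 ^ w ≤ 2 ^ n := by exact_mod_cast h3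
    have h5 : ((univ : Finset (Fin n → Bool)).card : ℝ) = 2 ^ n := by simp
    rw [h5] at hi
    have h6 : (0 : ℝ) < 2 ^ w := by positivity
    have h7 : (0 : ℝ) < 2 ^ n := by positivity
    nlinarith [mul_le_mul_of_nonneg_right hi h6.le]
  rw [h2] at h1
  have h5 : ((univ : Finset (Fin n → Bool)).card : ℝ) = 2 ^ n := by simp
  rw [h5] at h1
  have h8 : (2 : ℝ) ^ R * (2 ^ n / 2 ^ D) ≤ 2 ^ n / 4 := by
    have : (2 : ℝ) ^ R * 4 ≤ 2 ^ D := by
      calc (2 : ℝ) ^ R * 4 = 2 ^ (R + 2) := by rw [pow_add]; norm_num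
        _ ≤ 2 ^ D := pow_le_pow_right₀ (by norm_num) hRD
    rw [mul_div_assoc', div_le_div_iff₀ h2D (by norm_num)]
    have h7 : (0 : ℝ) < 2 ^ n := by positivity
    nlinarith
  have h7 : (0 : ℝ) < 2 ^ n := by positivity
  nlinarith [mul_le_mul_of_nonneg_right hRε h7.le]

end Pool.Agent.MP_e81270_lc.Space
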