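import Pool.Agent.Lib.MP_e81270_lc_Space.Main

/-!
# The two ranges of the parameters in one statement
-/

namespace Pool.Agent.MP_e81270_lc.Space

open Filter Topology

theorem final (K : ℕ) : ∃ c : ℕ → ℝ, (∀ C ≥ K + 9, 0 < c C) ∧ Tendsto c atTop (𝓝 1) ∧
    ∀ C ≥ K + 9, Works K C (c C) := by
  classical
  have key : ∀ C : ℕ, ∃ x : ℝ, x ≤ 1 ∧ (K + 9 ≤ C → 0 < x ∧ Works K C x ∧
      ∀ y ≤ 1, Works K C y → y - 1 / ((C : ℝ) + 1) ≤ x) := by
    intro C
    by_cases hC : K + 9 ≤ C
    · obtain ⟨c₁, hc₁, hw₁⟩ := works_one K C hC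
      set S : Set ℝ := {x | x ≤ 1 ∧ Works K C x} with hS
      have hmono : ∀ x y : ℝ, y ≤ x → Works K C x → Works K C y := by
        rintro x y hyx ⟨n₀, h⟩
        refine ⟨n₀, fun n hn w m hw hm => ?_⟩
        obtain ⟨h1, h2, h3⟩ := h n hn w m hw hm
        refine ⟨h1, h2, le_trans ?_ h3⟩
        have h4 : Nat.card {F : Fin m → Clause n w //
            ¬ (Unsat F ∧ ∀ L M, IsRefutation F (n ^ K) L M → (2 : ℝ) ^ (y * n) ≤ L)} ≤
            Nat.card {F : Fin m → Clause n w //
              ¬ (Unsat F ∧ ∀ L M, IsRefutation F (n ^ K) L M → (2 : ℝ) ^ (x * n) ≤ L)} := by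
          simp only [Nat.card_eq_fintype_card, Fintype.card_subtype]
          apply Finset.card_le_card
          intro F hF
          rw [Finset.mem_filter] at hF ⊢
          refine ⟨Finset.mem_univ _, fun hG => hF.2 ⟨hG.1, fun L M hLM => ?_⟩⟩
          refine le_trans ?_ (hG.2 L M hLM)
          exact Real.rpow_le_rpow_of_exponent_le (by norm_num)
            (mul_le_mul_of_nonneg_right hyx (by positivity))
        exact_mod_cast h4
      have hw₂ : Works K C (min c₁ 1) := hmono c₁ _ (min_le_left _ _) hw₁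
      have hne : S.Nonempty := ⟨min c₁ 1, min_le_right _ _, hw₂⟩
      have hbd : BddAbove S := ⟨1, fun x hx => hx.1⟩
      obtain ⟨x, hx, hxs⟩ := exists_lt_of_lt_csSup hne
        (show sSup S - 1 / ((C : ℝ) + 1) < sSup S by
          have : (0 : ℝ) < 1 / ((C : ℝ) + 1) := by positivity
          linarith)
      refine ⟨max (min c₁ 1) x, max_le (min_le_right _ _) hx.1, fun _ => ⟨?_, ?_, ?_⟩⟩
      · exact lt_of_lt_of_le (lt_min hc₁ one_pos) (le_max_left _ _)
      · rcases max_choice (min c₁ 1) x with h | h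
        · rw [h]; exact hw₂
        · rw [h]; exact hx.2
      · intro y hy hwy
        have h1 : y ≤ sSup S := le_csSup hbd ⟨hy, hwy⟩
        have h2 := le_max_right (min c₁ 1) x
        linarith
    · exact ⟨0, zero_le_one, fun h => absurd h hC⟩
  choose c hc1 hc using key
  refine ⟨c, fun C hC => (hc C hC).1, ?_, fun C hC => (hc C hC).2.1⟩
  rw [Metric.tendsto_atTop]
  intro ε hε
  obtain ⟨C₀, hC₀⟩ := works_two K (ε := min (ε / 2) 1) (lt_min (by linarith) one_pos)
    (min_le_right _ _)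
  obtain ⟨C₁, hC₁⟩ := exists_nat_ge (2 / ε)
  refine ⟨max (max C₀ C₁) (K + 9), fun C hC => ?_⟩
  have h1 : C₀ ≤ C := le_trans (le_trans (le_max_left _ _) (le_max_left _ _)) hC
  have h2 : (C₁ : ℝ) ≤ C := by
    exact_mod_cast le_trans (le_trans (le_max_right _ _) (le_max_left _ _)) hC
  have h3 : K + 9 ≤ C := le_trans (le_max_right _ _) hC
  have h4 := (hc C h3).2.2 (1 - min (ε / 2) 1)
    (by have : (0 : ℝ) ≤ min (ε / 2) 1 := le_min (by linarith) zero_le_one
        linarith) (hC₀ C h1)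
  have h5 : min (ε / 2) 1 ≤ ε / 2 := min_le_left _ _
  have h6 : 1 / ((C : ℝ) + 1) < ε / 2 := by
    rw [div_lt_div_iff₀ (by positivity) (by norm_num)]
    have h7 := hC₁.trans h2
    rw [div_le_iff₀ hε] at h7
    nlinarith
  rw [Real.dist_eq, abs_lt]
  constructor
  · linarith
  · have := hc1 C
    linarith

end Pool.Agent.MP_e81270_lc.Space
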