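import Pool.Agent.Lib.MP_e81270_lc_Space.Random

/-!
# The second moment bound for all sets of size `2 ^ (ε n)`
-/

namespace Pool.Agent.MP_e81270_lc.Space

open Finset

/-- exponential moment of the number of disagreements -/
theorem sum_pow_disagree {n : ℕ} (x : Fin n → Bool) (t : ℝ) :
    ∑ y : Fin n → Bool, t ^ (n - agree x y) = (1 + t) ^ n := by
  have h1 : ∀ y : Fin n → Bool, t ^ (n - agree x y) =
      ∏ i, (if x i = y i then 1 else t) := by
    intro y
    rw [Finset.prod_ite, Finset.prod_const, one_pow, one_mul, Finset.prod_const]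
    congr 1
    have := Finset.card_filter_add_card_filter_not (s := (univ : Finset (Fin n)))
      (fun i => x i = y i)
    rw [Finset.card_univ, Fintype.card_fin] at this
    unfold agree
    omega
  simp_rw [h1]
  have h2 := Finset.prod_univ_sum (fun _ : Fin n => (univ : Finset Bool))
    (fun i b => if x i = b then 1 else t)
  rw [Fintype.piFinset_univ] at h2
  rw [← h2]
  have h3 : ∀ i : Fin n, ∑ b : Bool, (if x i = b then 1 else t) = 1 + t := by
    intro i
    rcases h : x i <;> simp [add_comm]
  simp_rw [h3]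
  simp

theorem card_small_ball {n : ℕ} (x : Fin n → Bool) {ρ t : ℝ} (ht : 0 < t) (ht1 : t ≤ 1) :
    ((univ.filter fun y : Fin n → Bool => (1 - ρ) * n ≤ agree x y).card : ℝ) * t ^ (ρ * n) ≤
      (1 + t) ^ n := by
  rw [← sum_pow_disagree x t, ← nsmul_eq_mul, ← Finset.sum_const]
  calc _ ≤ ∑ y ∈ univ.filter fun y : Fin n → Bool => (1 - ρ) * n ≤ agree x y,
        t ^ (n - agree x y) := by
          apply Finset.sum_le_sum
          intro y hy
          simp only [mem_filter, mem_univ, true_and] at hy
          rw [← Real.rpow_natCast]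
          apply Real.rpow_le_rpow_of_exponent_ge ht ht1
          rw [Nat.cast_sub (agree_le x y)]
          linarith
    _ ≤ _ := Finset.sum_le_sum_of_subset_of_nonneg (filter_subset _ _)
          (fun _ _ _ => by positivity)

/-- general form of the second moment bound -/
theorem second_moment_of {n w : ℕ} {a b : ℝ} (hn : 0 < n) (ha : 0 ≤ a)
    (A : Finset (Fin n → Bool))
    (hA : ∀ x ∈ A, ((A.filter fun y => a * n ≤ agree x y).card : ℝ) ≤ b * A.card) :
    ∑ C : Clause n w, ((cut A C).card : ℝ) ^ 2 ≤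
      Fintype.card (Clause n w) * (A.card : ℝ) ^ 2 * ((a ^ w + b) / 2 ^ w) := by
  classical
  have hsq : ∀ C : Clause n w, ((cut A C).card : ℝ) ^ 2 =
      ∑ x ∈ A, ∑ y ∈ A, if Fals C x ∧ Fals C y then (1 : ℝ) else 0 := by
    intro C
    have : ((cut A C).card : ℝ) = ∑ x ∈ A, if Fals C x then (1 : ℝ) else 0 := by
      rw [cut, Finset.sum_boole]
    rw [this, sq, Finset.sum_mul_sum]
    refine Finset.sum_congr rfl fun x _ => Finset.sum_congr rfl fun y _ => ?_
    by_cases h1 : Fals C x <;> by_cases h2 : Fals C y <;> simp [h1, h2]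
  simp_rw [hsq]
  rw [Finset.sum_comm]
  have hswap : ∀ x ∈ A, ∑ C : Clause n w, ∑ y ∈ A, (if Fals C x ∧ Fals C y then (1 : ℝ) else 0) =
      ∑ y ∈ A, ((univ.filter fun C : Clause n w => Fals C x ∧ Fals C y).card : ℝ) := by
    intro x _
    rw [Finset.sum_comm]
    refine Finset.sum_congr rfl fun y _ => ?_
    rw [Finset.sum_boole]
  rw [Finset.sum_congr rfl hswap]
  have hkey : ∀ x ∈ A, ∑ y ∈ A,
      ((univ.filter fun C : Clause n w => Fals C x ∧ Fals C y).card : ℝ) ≤
      n.descFactorial w * (A.card * (a ^ w + b)) := by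
    intro x hx
    have hb : ∀ y ∈ A, ((univ.filter fun C : Clause n w => Fals C x ∧ Fals C y).card : ℝ) ≤
        n.descFactorial w * (a ^ w + if a * n ≤ agree x y then (1 : ℝ) else 0) := by
      intro y _
      have h1 : ((univ.filter fun C : Clause n w => Fals C x ∧ Fals C y).card : ℝ) ≤
          ((agree x y).descFactorial w : ℝ) := by exact_mod_cast card_fals_two x y
      refine h1.trans ((descFactorial_le _ n w (agree_le x y)).trans ?_)
      rw [mul_comm]
      refine mul_le_mul_of_nonneg_left ?_ (by positivity)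
      have hn' : (0 : ℝ) < n := by exact_mod_cast hn
      split_ifs with h
      · have : ((agree x y : ℝ) / n) ^ w ≤ 1 := by
          apply pow_le_one₀ (by positivity)
          rw [div_le_one hn']
          exact_mod_cast agree_le x y
        have h2 : (0 : ℝ) ≤ a ^ w := by positivity
        linarith
      · rw [add_zero]
        apply pow_le_pow_left₀ (by positivity)
        rw [div_le_iff₀ hn']
        push Not at h
        linarith
    refine (Finset.sum_le_sum hb).trans ?_
    rw [← Finset.mul_sum, Finset.sum_add_distrib, Finset.sum_const, nsmul_eq_mul, Finset.sum_boole]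
    refine mul_le_mul_of_nonneg_left ?_ (by positivity)
    have := hA x hx
    linarith
  refine (Finset.sum_le_sum hkey).trans ?_
  rw [Finset.sum_const, nsmul_eq_mul, card_clause]
  apply le_of_eq
  push_cast
  field_simp

/-- the number of clauses which are heavy for a set with a small second moment -/
theorem card_heavy_of {n w : ℕ} {a b θ : ℝ} (hθ : 0 < θ) (hn : 0 < n) (ha : 0 ≤ a)
    (A : Finset (Fin n → Bool)) (hA0 : A.Nonempty)
    (hA : ∀ x ∈ A, ((A.filter fun y => a * n ≤ agree x y).card : ℝ) ≤ b * A.card) :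
    ((heavy w θ A).card : ℝ) * θ ^ 2 ≤
      Fintype.card (Clause n w) * ((a ^ w + b) / 2 ^ w) := by
  have h0 : (0 : ℝ) < A.card := by exact_mod_cast hA0.card_pos
  have h1 := second_moment_of (w := w) hn ha A hA
  have h2 : ((heavy w θ A).card : ℝ) * (θ * A.card) ^ 2 ≤
      ∑ C : Clause n w, ((cut A C).card : ℝ) ^ 2 := by
    rw [← nsmul_eq_mul, ← Finset.sum_const]
    calc ∑ C ∈ heavy w θ A, (θ * (A.card : ℝ)) ^ 2
        ≤ ∑ C ∈ heavy w θ A, ((cut A C).card : ℝ) ^ 2 := by
          apply Finset.sum_le_sum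
          intro C hC
          apply pow_le_pow_left₀ (by positivity)
          exact mem_heavy.1 hC
      _ ≤ _ := Finset.sum_le_sum_of_subset_of_nonneg (subset_univ _) (fun _ _ _ => by positivity)
  have h3 := h2.trans h1
  have h4 : (0 : ℝ) < (A.card : ℝ) ^ 2 := by positivity
  rw [mul_pow] at h3
  have h5 : ((heavy w θ A).card : ℝ) * θ ^ 2 * (A.card : ℝ) ^ 2 ≤
      Fintype.card (Clause n w) * ((a ^ w + b) / 2 ^ w) * (A.card : ℝ) ^ 2 := by
    nlinarith [h3]
  exact le_of_mul_le_mul_right h5 h4

/-- For every `ε > 0` there is `ρ > 0` such that a Hamming ball of radius `ρ n` has at most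
`exp (ε n / 4)` elements. -/
theorem exists_rho {ε : ℝ} (hε : 0 < ε) (hε1 : ε ≤ 1) : ∃ ρ : ℝ, 0 < ρ ∧ ρ < 1 ∧
    ∀ (n : ℕ) (x : Fin n → Bool),
      ((univ.filter fun y : Fin n → Bool => (1 - ρ) * n ≤ agree x y).card : ℝ) ≤
        Real.exp (ε * n / 4) := by
  have hlog : 0 < Real.log (8 / ε) := by
    apply Real.log_pos
    rw [lt_div_iff₀ hε]
    linarith
  have hlog1 : 1 < Real.log (8 / ε) := by
    rw [Real.lt_log_iff_exp_lt (by positivity)]
    have := Real.exp_one_lt_d9
    rw [lt_div_iff₀ hε]
    nlinarith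
  refine ⟨ε / 8 / Real.log (8 / ε), by positivity, ?_, fun n x => ?_⟩
  · rw [div_lt_one hlog]
    linarith
  have h1 := card_small_ball (n := n) x (ρ := ε / 8 / Real.log (8 / ε)) (t := ε / 8)
    (by positivity) (by linarith)
  have h2 : (ε / 8) ^ (ε / 8 / Real.log (8 / ε) * n) = Real.exp (-(ε * n / 8)) := by
    rw [Real.rpow_def_of_pos (by positivity)]
    congr 1
    have : Real.log (ε / 8) = -Real.log (8 / ε) := by
      rw [← Real.log_inv, inv_div]
    rw [this]
    field_simp
  rw [h2] at h1
  have h3 : (1 + ε / 8) ^ n ≤ Real.exp (ε * n / 8) := by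
    have : 1 + ε / 8 ≤ Real.exp (ε / 8) := by
      have := Real.add_one_le_exp (ε / 8)
      linarith
    calc (1 + ε / 8) ^ n ≤ Real.exp (ε / 8) ^ n := pow_le_pow_left₀ (by positivity) this n
      _ = Real.exp (ε * n / 8) := by rw [← Real.exp_nat_mul]; ring_nf
  have h4 := h1.trans h3
  have h5 : Real.exp (ε * n / 4) = Real.exp (ε * n / 8) * Real.exp (ε * n / 8) := by
    rw [← Real.exp_add]; ring_nf
  rw [h5]
  rw [Real.exp_neg, ← div_eq_mul_inv, div_le_iff₀ (Real.exp_pos _)] at h4
  exact h4

end Pool.Agent.MP_e81270_lc.Space
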