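import Pool.Agent.Lib.MP_e81270_lc_Space.Bad
import Pool.Agent.Lib.MP_e81270_lc_Space.Moment2

/-!
# The choice of the parameters and the main theorem
-/

namespace Pool.Agent.MP_e81270_lc.Space

open Finset

theorem clog_small (C : ℕ) : ∃ n₀ : ℕ, ∀ n ≥ n₀, C * Nat.clog 2 n ≤ n := by
  have h := tendsto_pow_const_div_const_pow_of_one_lt 1 (r := (2 : ℝ)) (by norm_num)
  have h2 := h.eventually (gt_mem_nhds (show (0 : ℝ) < 1 / (2 * C + 2) by positivity))
  obtain ⟨l₀, hl₀⟩ := Filter.eventually_atTop.1 h2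
  refine ⟨C * l₀ + 2, fun n hn => ?_⟩
  rcases le_or_gt l₀ (Nat.clog 2 n) with h3 | h3
  · have h4 := hl₀ _ h3
    rw [pow_one, div_lt_div_iff₀ (by positivity) (by positivity), one_mul] at h4
    have h5 : 2 ^ (Nat.clog 2 n).pred < n := Nat.pow_pred_clog_lt_self (by norm_num) (by omega)
    have h6 : 0 < Nat.clog 2 n := Nat.clog_pos (by norm_num) (by omega)
    have h7 : 2 ^ Nat.clog 2 n = 2 * 2 ^ (Nat.clog 2 n).pred := by
      conv_lhs => rw [← Nat.succ_pred_eq_of_pos h6]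
      rw [pow_succ, mul_comm]
    have h8 : Nat.clog 2 n * (2 * C + 2) < 2 ^ Nat.clog 2 n := by exact_mod_cast h4
    rw [h7] at h8
    nlinarith
  · have : C * Nat.clog 2 n ≤ C * l₀ := Nat.mul_le_mul_left _ h3.le
    omega

/-- the numerical conditions for the parameters -/
structure Large (K C n : ℕ) : Prop where
  h1 : 2 ^ (C + 1) ≤ n
  h2 : 6 * (K + 2) * Nat.clog 2 n ≤ n
  h3 : C * Nat.clog 2 n ≤ n
  h4 : 1024 ≤ n

theorem large (K C : ℕ) : ∃ n₀ : ℕ, ∀ n ≥ n₀, Large K C n := by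
  obtain ⟨n₁, h1⟩ := clog_small (6 * (K + 2))
  obtain ⟨n₂, h2⟩ := clog_small C
  refine ⟨max (max n₁ n₂) (max (2 ^ (C + 1)) 1024), fun n hn => ⟨?_, h1 n ?_, h2 n ?_, ?_⟩⟩
  · exact le_trans (le_trans (le_max_left _ _) (le_max_right _ _)) hn
  · exact le_trans (le_trans (le_max_left _ _) (le_max_left _ _)) hn
  · exact le_trans (le_trans (le_max_right _ _) (le_max_left _ _)) hn
  · exact le_trans (le_trans (le_max_right _ _) (le_max_right _ _)) hn

theorem two_mul_four_pow {n : ℕ} (hn : 2 ≤ n) : 2 * (4 : ℝ) ^ n ≤ 7 ^ n := by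
  obtain ⟨k, rfl⟩ : ∃ k, n = k + 2 := ⟨n - 2, by omega⟩
  rw [pow_add, pow_add]
  have : (4 : ℝ) ^ k ≤ 7 ^ k := pow_le_pow_left₀ (by norm_num) (by norm_num) _
  nlinarith [show (0 : ℝ) < 4 ^ k by positivity]

theorem le_two_pow_clog (n : ℕ) : n ≤ 2 ^ Nat.clog 2 n := Nat.le_pow_clog (by norm_num) n

theorem two_pow_clog_le {n : ℕ} (hn : 1 < n) : 2 ^ Nat.clog 2 n ≤ 2 * n := by
  have h5 : 2 ^ (Nat.clog 2 n).pred < n := Nat.pow_pred_clog_lt_self (by norm_num) hn
  have h6 : 0 < Nat.clog 2 n := Nat.clog_pos (by norm_num) hn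
  have h7 : 2 ^ Nat.clog 2 n = 2 * 2 ^ (Nat.clog 2 n).pred := by
    conv_lhs => rw [← Nat.succ_pred_eq_of_pos h6]
    rw [pow_succ, mul_comm]
  omega

variable {K C n : ℕ}

theorem Large.m_le (h : Large K C n) :
    2 * n * 2 ^ (C * Nat.clog 2 n) ≤ n ^ (C + 2) := by
  have h2 := two_pow_clog_le (n := n) (by have := h.h4; omega)
  calc 2 * n * 2 ^ (C * Nat.clog 2 n) = 2 * n * (2 ^ Nat.clog 2 n) ^ C := by
        rw [← pow_mul, mul_comm C]
    _ ≤ 2 * n * (2 * n) ^ C := by gcongr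
    _ = 2 ^ (C + 1) * n ^ (C + 1) := by rw [mul_pow]; ring
    _ ≤ n * n ^ (C + 1) := Nat.mul_le_mul_right _ h.h1
    _ = n ^ (C + 2) := by ring

theorem Large.family_le (h : Large K C n) {R : ℕ} (hR : R + 1 ≤ n) :
    (2 * (n + n ^ K + 2) ^ (2 * n ^ K)) ^ (2 * R + 1) ≤ 2 ^ (n ^ (K + 2)) := by
  have hn := h.h4
  have hK : 1 ≤ n ^ K := Nat.one_le_pow _ _ (by omega)
  have h1 : n + n ^ K + 2 ≤ n ^ (K + 2) := by
    have : n ^ (K + 2) = n ^ K * n * n := by ring
    rw [this]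
    nlinarith [Nat.mul_le_mul hK hn]
  have h2 : 2 ≤ n ^ (K + 2) := by omega
  calc (2 * (n + n ^ K + 2) ^ (2 * n ^ K)) ^ (2 * R + 1)
      ≤ (n ^ (K + 2) * (n ^ (K + 2)) ^ (2 * n ^ K)) ^ (2 * R + 1) := by gcongr
    _ = n ^ ((K + 2) * ((2 * n ^ K + 1) * (2 * R + 1))) := by
        rw [← pow_succ', ← pow_mul, ← pow_mul]
    _ ≤ (2 ^ Nat.clog 2 n) ^ ((K + 2) * ((2 * n ^ K + 1) * (2 * R + 1))) :=
        Nat.pow_le_pow_left (le_two_pow_clog n) _
    _ = 2 ^ (Nat.clog 2 n * ((K + 2) * ((2 * n ^ K + 1) * (2 * R + 1)))) := by rw [← pow_mul]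
    _ ≤ 2 ^ (n ^ (K + 2)) := by
        apply Nat.pow_le_pow_right (by norm_num)
        calc Nat.clog 2 n * ((K + 2) * ((2 * n ^ K + 1) * (2 * R + 1)))
            ≤ Nat.clog 2 n * ((K + 2) * ((3 * n ^ K) * (2 * n))) := by
              gcongr <;> omega
          _ = (6 * (K + 2) * Nat.clog 2 n) * (n ^ K * n) := by ring
          _ ≤ n * (n ^ K * n) := Nat.mul_le_mul_right _ h.h2
          _ = n ^ (K + 2) := by ring

/-- The main estimate, for given parameters. -/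
theorem core {w m R Dd : ℕ} {κ : ℝ} (h : Large K C n)
    (hm : m = 2 * n * 2 ^ w) (hR : R + 2 = Dd) (hRn : R + 1 ≤ n)
    (hw : (n : ℝ) ^ (K + 5) ≤ 2 ^ w) (hκ : κ ≤ 2 / (n : ℝ) ^ (K + 8))
    (hH : ∀ A : Finset (Fin n → Bool), (2 : ℝ) ^ n ≤ A.card * 2 ^ Dd →
      ((heavy w (1 / (n : ℝ) ^ (K + 4)) A).card : ℝ) * (1 / (n : ℝ) ^ (K + 4)) ^ 2 ≤
        Fintype.card (Clause n w) * (κ / 2 ^ w)) :
    (Nat.card {F : Fin m → Clause n w //
      ¬ (Unsat F ∧ ∀ L M, IsRefutation F (n ^ K) L M → 2 ^ R < L)} : ℝ) ≤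
        (1 / 2) ^ n * Nat.card (Fin m → Clause n w) := by
  classical
  have hbig := h.h4
  have hbigR : (1024 : ℝ) ≤ n := by exact_mod_cast hbig
  have hn0 : (0 : ℝ) < n := by linarith
  set θ : ℝ := 1 / (n : ℝ) ^ (K + 4) with hθ
  have hθ0 : 0 < θ := by positivity
  set M := n ^ (K + 2) with hM
  set ε : ℝ := 1 / (n : ℝ) ^ 2 with hε
  set p : ℝ := κ / 2 ^ w * (n : ℝ) ^ (2 * K + 8) with hp
  have hpθ : κ / 2 ^ w = p * θ ^ 2 := by
    rw [hp, hθ]
    have : ((n : ℝ) ^ (2 * K + 8)) = ((n : ℝ) ^ (K + 4)) ^ 2 := by rw [← pow_mul]; congr 1; ring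
    rw [this]
    field_simp
  have hHp : ∀ A : Finset (Fin n → Bool), (2 : ℝ) ^ n ≤ A.card * 2 ^ Dd →
      ((heavy w θ A).card : ℝ) ≤ Fintype.card (Clause n w) * p := by
    intro A hA
    have h1 := hH A hA
    rw [hpθ, ← mul_assoc] at h1
    exact le_of_mul_le_mul_right h1 (by positivity)
  have h3pm : 3 * p * m ≤ 12 * (n : ℝ) ^ (K + 1) := by
    have h5 : 3 * p * m = 6 * κ * (n : ℝ) ^ (2 * K + 9) := by
      rw [hp, hm]
      push_cast
      field_simp
      ring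
    rw [h5]
    have h6 : (n : ℝ) ^ (2 * K + 9) = (n : ℝ) ^ (K + 8) * (n : ℝ) ^ (K + 1) := by
      rw [← pow_add]; congr 1; ring
    rw [le_div_iff₀ (by positivity)] at hκ
    rw [h6]
    have h7 : (0 : ℝ) < (n : ℝ) ^ (K + 1) := by positivity
    nlinarith [mul_le_mul_of_nonneg_right hκ h7.le]
  -- the two counts
  set T : ℝ := (Fintype.card (Clause n w) : ℝ) with hT
  have hbad := card_bad (n := n) (w := w) (m := m) (s := n ^ K) (R := R) (Dd := Dd) (M := M) hHp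
  have hfam : ((((2 * (n + n ^ K + 2) ^ (2 * n ^ K)) ^ (2 * R + 1) : ℕ)) : ℝ) ≤
      2 ^ (n ^ (K + 2)) := by exact_mod_cast h.family_le hRn
  have hexp : Real.exp (3 * p * m) ≤ 4 ^ (12 * n ^ (K + 1)) := by
    have h7 : Real.exp 1 ≤ 4 := by
      have := Real.exp_one_lt_d9; linarith
    calc Real.exp (3 * p * m) ≤ Real.exp (12 * (n : ℝ) ^ (K + 1)) := Real.exp_le_exp.2 h3pm
      _ = Real.exp 1 ^ (12 * n ^ (K + 1)) := by
          rw [← Real.exp_nat_mul]; push_cast; ring_nf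
      _ ≤ 4 ^ (12 * n ^ (K + 1)) := pow_le_pow_left₀ (Real.exp_pos _).le h7 _
  have hexpo : n ^ (K + 2) + 2 * (12 * n ^ (K + 1)) + n + 2 ≤ 2 * (n ^ (K + 2) + 1) := by
    have h8 : n ^ (K + 2) = n ^ (K + 1) * n := by ring
    have h9 : n ≤ n ^ (K + 1) := Nat.le_self_pow (by omega) n
    rw [h8]
    nlinarith
  have hbad2 : ((Nat.card {F : Fin m → Clause n w // ¬ Good n w m (n ^ K) R Dd M θ F} : ℕ) : ℝ) ≤
      (1 / 2) ^ n / 4 * T ^ m := by
    have h10 : ((Nat.card {F : Fin m → Clause n w // ¬ Good n w m (n ^ K) R Dd M θ F} : ℕ) : ℝ) *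
        4 ^ (M + 1) ≤ 2 ^ (n ^ (K + 2)) * (T ^ m * 4 ^ (12 * n ^ (K + 1))) := by
      refine hbad.trans ?_
      gcongr
    have h11 : (2 : ℝ) ^ (n ^ (K + 2)) * 4 ^ (12 * n ^ (K + 1)) * (2 ^ n * 4) ≤ 4 ^ (M + 1) := by
      have e0 : ∀ j : ℕ, (4 : ℝ) ^ j = 2 ^ (2 * j) := by
        intro j
        rw [pow_mul]; norm_num
      have e1 := e0 (12 * n ^ (K + 1))
      have e2 := e0 (M + 1)
      have e3 : (2 : ℝ) ^ n * 4 = 2 ^ (n + 2) := by rw [pow_add]; norm_num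
      rw [e1, e2, e3, ← pow_add, ← pow_add]
      apply pow_le_pow_right₀ (by norm_num)
      omega
    have h12 : (0 : ℝ) < 4 ^ (M + 1) := by positivity
    rw [← le_div_iff₀ h12] at h10
    refine h10.trans ?_
    rw [div_le_iff₀ h12]
    have h13 : ((1 : ℝ) / 2) ^ n * 2 ^ n = 1 := by rw [← mul_pow]; norm_num
    calc (2 : ℝ) ^ (n ^ (K + 2)) * (T ^ m * 4 ^ (12 * n ^ (K + 1)))
        = ((1 : ℝ) / 2) ^ n / 4 * T ^ m *
          (2 ^ (n ^ (K + 2)) * 4 ^ (12 * n ^ (K + 1)) * (2 ^ n * 4)) := by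
            linear_combination -((2 : ℝ) ^ (n ^ (K + 2)) * (T ^ m * 4 ^ (12 * n ^ (K + 1)))) * h13
      _ ≤ ((1 : ℝ) / 2) ^ n / 4 * T ^ m * 4 ^ (M + 1) := by gcongr
  have hsat : ((Nat.card {F : Fin m → Clause n w // ¬ Unsat F} : ℕ) : ℝ) ≤
      (1 / 2) ^ n / 2 * T ^ m := by
    refine card_sat.trans ?_
    have h14 : T - n.descFactorial w = T * (1 - 1 / 2 ^ w) := by
      rw [hT, card_clause]
      push_cast
      field_simp
    rw [← hT, h14, mul_pow]
    have h15 : (1 - 1 / (2 : ℝ) ^ w) ^ m ≤ Real.exp (-(2 * n)) := by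
      have h16 : 1 - 1 / (2 : ℝ) ^ w ≤ Real.exp (-(1 / 2 ^ w)) := by
        have := Real.add_one_le_exp (-(1 / (2 : ℝ) ^ w))
        linarith
      have h17 : (0 : ℝ) ≤ 1 - 1 / (2 : ℝ) ^ w := by
        have : (1 : ℝ) ≤ 2 ^ w := one_le_pow₀ (by norm_num)
        rw [sub_nonneg, div_le_one (by positivity)]
        exact this
      refine (pow_le_pow_left₀ h17 h16 m).trans (le_of_eq ?_)
      rw [← Real.exp_nat_mul, hm]
      push_cast
      congr 1
      field_simp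
    have h18 : (2 : ℝ) ^ n * Real.exp (-(2 * n)) ≤ (1 / 2) ^ n / 2 := by
      have h19 : (7 : ℝ) ≤ Real.exp 2 := by
        have h20 : Real.exp 2 = Real.exp 1 * Real.exp 1 := by rw [← Real.exp_add]; norm_num
        have h21 := Real.exp_one_gt_d9
        rw [h20]
        nlinarith
      have h22 : (7 : ℝ) ^ n ≤ Real.exp (2 * n) := by
        have : Real.exp (2 * n) = Real.exp 2 ^ n := by rw [← Real.exp_nat_mul]; ring_nf
        rw [this]
        exact pow_le_pow_left₀ (by norm_num) h19 _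
      have h23 : 2 * (4 : ℝ) ^ n ≤ 7 ^ n := two_mul_four_pow (by omega)
      rw [Real.exp_neg, ← div_eq_mul_inv, div_le_div_iff₀ (Real.exp_pos _) (by norm_num)]
      have h24 : (4 : ℝ) ^ n = 2 ^ n * 2 ^ n := by rw [← mul_pow]; norm_num
      have h25 : ((1 : ℝ) / 2) ^ n * 2 ^ n = 1 := by rw [← mul_pow]; norm_num
      have h26 : 2 * (2 ^ n * 2 ^ n) ≤ Real.exp (2 * n) := by rw [← h24]; linarith
      calc (2 : ℝ) ^ n * 2 = ((1 : ℝ) / 2) ^ n * (2 * (2 ^ n * 2 ^ n)) := by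
            linear_combination -(2 * (2 : ℝ) ^ n) * h25
        _ ≤ ((1 : ℝ) / 2) ^ n * Real.exp (2 * n) := by gcongr
    calc (2 : ℝ) ^ n * (T ^ m * (1 - 1 / (2 : ℝ) ^ w) ^ m)
        ≤ 2 ^ n * (T ^ m * Real.exp (-(2 * n))) := by gcongr
      _ = (2 ^ n * Real.exp (-(2 * n))) * T ^ m := by ring
      _ ≤ (1 / 2) ^ n / 2 * T ^ m := by gcongr
  -- good formulas are hard
  have hgood : ∀ F : Fin m → Clause n w, Good n w m (n ^ K) R Dd M θ F →
      ∀ L P, IsRefutation F (n ^ K) L P → 2 ^ R < L := by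
    intro F hF L P hP
    refine long_of_good (ε := ε) hθ0 F hF
      (by
        rw [hM, hθ, hε]
        push_cast
        have : (n : ℝ) ^ (K + 4) = n ^ (K + 2) * n ^ 2 := by rw [← pow_add]
        rw [this]
        apply le_of_eq
        field_simp)
      (by
        rw [hθ, hε]
        push_cast
        rw [mul_one_div, div_le_div_iff₀ (by positivity) (by positivity), one_mul, ← pow_add]
        exact pow_le_pow_right₀ (by linarith) (by omega))
      (by
        rw [hθ, one_div_mul_eq_div, lt_div_iff₀ (by positivity), one_mul]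
        refine lt_of_lt_of_le ?_ hw
        exact pow_lt_pow_right₀ (by linarith) (by omega))
      hR.le
      (by
        rw [hε, mul_one_div, div_le_div_iff₀ (by positivity) (by norm_num), one_mul]
        have : ((R : ℝ) + 1) ≤ n := by exact_mod_cast hRn
        nlinarith) P hP
  -- the union
  have hun : Nat.card {F : Fin m → Clause n w //
      ¬ (Unsat F ∧ ∀ L M, IsRefutation F (n ^ K) L M → 2 ^ R < L)} ≤
      Nat.card {F : Fin m → Clause n w // ¬ Unsat F} +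
        Nat.card {F : Fin m → Clause n w // ¬ Good n w m (n ^ K) R Dd M θ F} := by
    simp only [Nat.card_eq_fintype_card, Fintype.card_subtype]
    refine (card_le_card ?_).trans (card_union_le _ _)
    intro F hF
    rw [mem_filter] at hF
    rw [mem_union, mem_filter, mem_filter]
    by_cases hU : Unsat F
    · right
      refine ⟨mem_univ _, fun hG => hF.2 ⟨hU, hgood F hG⟩⟩
    · left
      exact ⟨mem_univ _, hU⟩
  have hunR : ((Nat.card {F : Fin m → Clause n w //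
      ¬ (Unsat F ∧ ∀ L M, IsRefutation F (n ^ K) L M → 2 ^ R < L)} : ℕ) : ℝ) ≤
      ((Nat.card {F : Fin m → Clause n w // ¬ Unsat F} : ℕ) : ℝ) +
        ((Nat.card {F : Fin m → Clause n w // ¬ Good n w m (n ^ K) R Dd M θ F} : ℕ) : ℝ) := by
    exact_mod_cast hun
  refine hunR.trans ?_
  have hcardF : ((Nat.card (Fin m → Clause n w) : ℕ) : ℝ) = T ^ m := by
    rw [Nat.card_eq_fintype_card, Fintype.card_fun, hT]
    simp
  rw [hcardF]
  have hpos : (0 : ℝ) ≤ (1 / 2) ^ n * T ^ m := by positivity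
  linarith

/-- For all large `n`, almost all CNFs with `m = 2 * n * 2 ^ w` clauses of width
`w = C * ⌈log₂ n⌉` in `n` variables are unsatisfiable and have no Extended Frege refutation in
space `n ^ K` with fewer than `2 ^ (c * n)` steps. -/
def Works (K C : ℕ) (c : ℝ) : Prop := ∃ n₀ : ℕ, ∀ n ≥ n₀, ∀ w m : ℕ,
  w = C * Nat.clog 2 n → m = 2 * n * 2 ^ w →
  w ≤ n ∧ m ≤ n ^ (C + 2) ∧
  (Nat.card {F : Fin m → Clause n w //
    ¬ (Unsat F ∧ ∀ L M, IsRefutation F (n ^ K) L M → (2 : ℝ) ^ (c * n) ≤ L)} : ℝ) ≤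
      (1 / 2) ^ n * Nat.card (Fin m → Clause n w)

theorem works_of {c : ℝ} (n₁ : ℕ) (h1 : ∀ n ≥ n₁, Large K C n → ∀ w m : ℕ,
    w = C * Nat.clog 2 n → m = 2 * n * 2 ^ w → ∃ R : ℕ, c * n ≤ R ∧
      (Nat.card {F : Fin m → Clause n w //
        ¬ (Unsat F ∧ ∀ L M, IsRefutation F (n ^ K) L M → 2 ^ R < L)} : ℝ) ≤
        (1 / 2) ^ n * Nat.card (Fin m → Clause n w)) : Works K C c := by
  classical
  obtain ⟨n₀, hn₀⟩ := large K C
  refine ⟨max n₀ n₁, ?_⟩
  intro n hn w m hw hm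
  have h := hn₀ n (le_trans (le_max_left _ _) hn)
  obtain ⟨R, hR, hcard⟩ := h1 n (le_trans (le_max_right _ _) hn) h w m hw hm
  refine ⟨by rw [hw]; exact h.h3, by rw [hm, hw]; exact h.m_le, le_trans ?_ hcard⟩
  have h2 : Nat.card {F : Fin m → Clause n w //
      ¬ (Unsat F ∧ ∀ L M, IsRefutation F (n ^ K) L M → (2 : ℝ) ^ (c * n) ≤ L)} ≤
      Nat.card {F : Fin m → Clause n w //
        ¬ (Unsat F ∧ ∀ L M, IsRefutation F (n ^ K) L M → 2 ^ R < L)} := by
    simp only [Nat.card_eq_fintype_card, Fintype.card_subtype]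
    apply card_le_card
    intro F hF
    rw [mem_filter] at hF ⊢
    refine ⟨mem_univ _, fun hG => hF.2 ⟨hG.1, fun L M hLM => ?_⟩⟩
    have h3 : (2 : ℝ) ^ R ≤ L := by exact_mod_cast (hG.2 L M hLM).le
    refine le_trans ?_ h3
    rw [← Real.rpow_natCast 2 R]
    exact Real.rpow_le_rpow_of_exponent_le (by norm_num) hR
  exact_mod_cast h2

theorem pow_le_two_pow_mul {n j : ℕ} {C : ℕ} (hj : j ≤ C) :
    (n : ℝ) ^ j ≤ 2 ^ (C * Nat.clog 2 n) := by
  rcases Nat.eq_zero_or_pos n with hn | hn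
  · subst hn
    rcases Nat.eq_zero_or_pos j with h | h
    · subst h
      rw [pow_zero]
      exact one_le_pow₀ (by norm_num)
    · rw [Nat.cast_zero, zero_pow h.ne']
      positivity
  have h2l : (n : ℝ) ≤ 2 ^ Nat.clog 2 n := by exact_mod_cast le_two_pow_clog n
  have : (2 : ℝ) ^ (C * Nat.clog 2 n) = (2 ^ Nat.clog 2 n) ^ C := by rw [← pow_mul, mul_comm]
  rw [this]
  calc (n : ℝ) ^ j ≤ (n : ℝ) ^ C := pow_le_pow_right₀ (by exact_mod_cast hn) hj
    _ ≤ _ := pow_le_pow_left₀ (by positivity) h2l _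

/-- the first range of the parameters: nearly linear space -/
theorem works_one (K C : ℕ) (hC : K + 9 ≤ C) : ∃ c : ℝ, 0 < c ∧ Works K C c := by
  have hCR : (9 : ℝ) ≤ C := by
    have : (9 : ℕ) ≤ C := by omega
    exact_mod_cast this
  refine ⟨1 / (32 * C ^ 2), by positivity, ?_⟩
  obtain ⟨n₂, hn₂⟩ := clog_small (16 * C ^ 3)
  refine works_of (max n₂ (96 * C ^ 2)) ?_
  rintro n hn h w m rfl rfl
  have h2 := hn₂ n (le_trans (le_max_left _ _) hn)
  have h3 : 96 * C ^ 2 ≤ n := le_trans (le_max_right _ _) hn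
  set l := Nat.clog 2 n with hl
  have hbig := h.h4
  have hbigR : (1024 : ℝ) ≤ n := by exact_mod_cast hbig
  have hn0 : (0 : ℝ) < n := by linarith
  have hC0 : 0 < C := by omega
  set Dd := n / (16 * C ^ 2) with hDd
  obtain ⟨R, hR⟩ : ∃ R, R + 2 = Dd := by
    have : 2 ≤ Dd := by
      rw [hDd, Nat.le_div_iff_mul_le (by positivity)]
      nlinarith
    exact ⟨Dd - 2, by omega⟩
  have hDn : Dd ≤ n / 16 := by
    rw [hDd]
    exact Nat.div_le_div_left (Nat.le_mul_of_pos_right _ (by positivity)) (by norm_num)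
  have hwD : C * l ≤ Dd := by
    rw [hDd, Nat.le_div_iff_mul_le (by positivity)]
    refine le_trans (le_of_eq ?_) h2
    ring
  set δ : ℝ := 1 / (2 * (C : ℝ)) with hδ
  have hδ0 : 0 < δ := by positivity
  have hDle : (Dd : ℝ) ≤ n / (16 * (C : ℝ) ^ 2) := by
    rw [hDd]
    refine Nat.cast_div_le.trans (le_of_eq ?_)
    push_cast
    ring
  have hD : 2 * (Dd : ℝ) ≤ δ ^ 2 * n / 2 := by
    have : δ ^ 2 * n / 2 = 2 * (n / (16 * (C : ℝ) ^ 2)) := by
      rw [hδ]; field_simp; ring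
    rw [this]
    linarith
  have hδw : (1 + δ) ^ (C * l) ≤ 2 ^ l := by
    have h1 : (1 + δ) ^ C ≤ 2 := by
      have h2 : (1 + δ) ^ C ≤ Real.exp δ ^ C := by
        apply pow_le_pow_left₀ (by positivity)
        have := Real.add_one_le_exp δ
        linarith
      refine h2.trans ?_
      rw [← Real.exp_nat_mul]
      have h3 : (C : ℝ) * δ = 1 / 2 := by
        rw [hδ]; field_simp
      rw [h3]
      have h4 : Real.exp (1 / 2) * Real.exp (1 / 2) = Real.exp 1 := by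
        rw [← Real.exp_add]; norm_num
      have h5 := Real.exp_one_lt_d9
      have h6 := Real.exp_pos (1 / 2)
      nlinarith
    rw [pow_mul]
    exact pow_le_pow_left₀ (by positivity) h1 _
  refine ⟨R, ?_, core (κ := ((1 + δ) ^ (C * l) + 1) / 2 ^ (C * l)) h rfl hR (by omega)
    (pow_le_two_pow_mul (by omega)) ?_ ?_⟩
  · have h32 : (n : ℝ) / (16 * (C : ℝ) ^ 2) - 1 ≤ Dd := by
      have h33 := Nat.lt_div_mul_add (a := n) (b := 16 * C ^ 2) (by positivity)
      have h34 : (n : ℝ) < Dd * (16 * (C : ℝ) ^ 2) + 16 * (C : ℝ) ^ 2 := by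
        rw [hDd]; exact_mod_cast h33
      rw [sub_le_iff_le_add, div_le_iff₀ (by positivity)]
      linarith
    have h35 : (R : ℝ) + 2 = Dd := by exact_mod_cast hR
    have h36 : (96 : ℝ) * (C : ℝ) ^ 2 ≤ n := by exact_mod_cast h3
    have h37 : (3 : ℝ) ≤ n / (32 * (C : ℝ) ^ 2) := by
      rw [le_div_iff₀ (by positivity)]; linarith
    have h38 : (n : ℝ) / (16 * (C : ℝ) ^ 2) = 2 * (n / (32 * (C : ℝ) ^ 2)) := by
      field_simp; ring
    have h39 : 1 / (32 * (C : ℝ) ^ 2) * (n : ℝ) = n / (32 * (C : ℝ) ^ 2) := by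
      field_simp
    rw [h39]
    linarith
  · rw [div_le_div_iff₀ (by positivity) (by positivity)]
    have h6 : (1 + δ) ^ (C * l) + 1 ≤ 2 * 2 ^ l := by
      have : (1 : ℝ) ≤ 2 ^ l := one_le_pow₀ (by norm_num)
      linarith
    have h7 : (2 : ℝ) ^ l * (n : ℝ) ^ (K + 8) ≤ 2 ^ (C * l) := by
      obtain ⟨C', rfl⟩ : ∃ C', C = C' + 1 := ⟨C - 1, by omega⟩
      have : (2 : ℝ) ^ ((C' + 1) * l) = 2 ^ l * 2 ^ (C' * l) := by
        rw [← pow_add]; congr 1; ring
      rw [this]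
      apply mul_le_mul_of_nonneg_left _ (by positivity)
      exact pow_le_two_pow_mul (by omega)
    calc ((1 + δ) ^ (C * l) + 1) * (n : ℝ) ^ (K + 8) ≤ (2 * 2 ^ l) * (n : ℝ) ^ (K + 8) := by
          gcongr
      _ = 2 * (2 ^ l * (n : ℝ) ^ (K + 8)) := by ring
      _ ≤ 2 * 2 ^ (C * l) := by gcongr
  · intro A hA
    have h8 := card_heavy (w := C * l) (θ := 1 / (n : ℝ) ^ (K + 4)) hδ0 (by positivity) (by omega)
      A hA hD hwD
    have h9 : ((1 + δ) ^ (C * l) + 1) / 2 ^ (C * l) / 2 ^ (C * l) =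
        ((1 + δ) ^ (C * l) + 1) / 4 ^ (C * l) := by
      rw [div_div, ← mul_pow]; norm_num
    rw [h9]
    exact h8

/-- the second range of the parameters: exponent near `1` -/
theorem works_two (K : ℕ) {ε : ℝ} (hε : 0 < ε) (hε1 : ε ≤ 1) :
    ∃ C₀ : ℕ, ∀ C ≥ C₀, Works K C (1 - ε) := by
  obtain ⟨ρ, hρ0, hρ1, hρ⟩ := exists_rho (ε := ε / 2) (by linarith) (by linarith)
  obtain ⟨C₁, hC₁⟩ := exists_nat_ge (((K : ℝ) + 8) / ρ)
  refine ⟨max C₁ (K + 9), fun C hC => ?_⟩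
  have hCK : K + 9 ≤ C := le_trans (le_max_right _ _) hC
  have hCρ : (K : ℝ) + 8 ≤ ρ * C := by
    have h1 : (C₁ : ℝ) ≤ C := by exact_mod_cast le_trans (le_max_left _ _) hC
    have h2 := hC₁.trans h1
    rw [div_le_iff₀ hρ0] at h2
    linarith
  obtain ⟨C₂, hC₂⟩ := exists_nat_ge (8 * ((K : ℝ) + 8) / ε)
  obtain ⟨n₂, hn₂⟩ := clog_small C₂
  obtain ⟨n₃, hn₃⟩ := exists_nat_ge (6 / ε)
  refine works_of (max n₂ n₃) ?_
  rintro n hn h w m rfl rfl
  have h2 := hn₂ n (le_trans (le_max_left _ _) hn)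
  have h3 : 6 / ε ≤ (n : ℝ) := hn₃.trans (by exact_mod_cast le_trans (le_max_right _ _) hn)
  set l := Nat.clog 2 n with hl
  have hbig := h.h4
  have hbigR : (1024 : ℝ) ≤ n := by exact_mod_cast hbig
  have hn0 : (0 : ℝ) < n := by linarith
  have h6 : 6 ≤ ε * n := by
    rw [div_le_iff₀ hε] at h3; linarith
  set Dd := ⌊(1 - ε / 2) * n⌋₊ with hDd
  have hDle : (Dd : ℝ) ≤ (1 - ε / 2) * n := Nat.floor_le (by nlinarith)
  have hDge : (1 - ε / 2) * n - 1 < Dd := by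
    have := Nat.lt_floor_add_one ((1 - ε / 2) * (n : ℝ))
    linarith
  obtain ⟨R, hR⟩ : ∃ R, R + 2 = Dd := by
    have : 2 ≤ Dd := by
      have h7 : (2 : ℝ) ≤ Dd := by nlinarith
      exact_mod_cast h7
    exact ⟨Dd - 2, by omega⟩
  have hRR : (R : ℝ) + 2 = Dd := by exact_mod_cast hR
  have hRn : R + 1 ≤ n := by
    have : (R : ℝ) + 1 ≤ n := by nlinarith
    exact_mod_cast this
  have hl4 : ((K : ℝ) + 8) * l ≤ ε / 8 * n := by
    have h7 : (C₂ : ℝ) * l ≤ n := by exact_mod_cast h2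
    have h8 : 8 * ((K : ℝ) + 8) / ε * l ≤ n := le_trans (by gcongr) h7
    rw [div_mul_eq_mul_div, div_le_iff₀ hε] at h8
    linarith
  have hnl : (n : ℝ) ≤ Real.exp l := by
    have h9 : (n : ℝ) ≤ 2 ^ l := by exact_mod_cast le_two_pow_clog n
    refine h9.trans ?_
    have h10 : (2 : ℝ) ≤ Real.exp 1 := by
      have := Real.add_one_le_exp (1 : ℝ); linarith
    calc (2 : ℝ) ^ l ≤ Real.exp 1 ^ l := pow_le_pow_left₀ (by norm_num) h10 _
      _ = Real.exp l := by rw [← Real.exp_nat_mul]; ring_nf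
  have hnK : (n : ℝ) ^ (K + 8) ≤ Real.exp (((K : ℝ) + 8) * l) := by
    calc (n : ℝ) ^ (K + 8) ≤ Real.exp l ^ (K + 8) := pow_le_pow_left₀ hn0.le hnl _
      _ = Real.exp (((K : ℝ) + 8) * l) := by
          rw [← Real.exp_nat_mul]; push_cast; ring_nf
  refine ⟨R, ?_, core (κ := (1 - ρ) ^ (C * l) + Real.exp (-(ε / 8 * n))) h rfl hR hRn
    (pow_le_two_pow_mul (by omega)) ?_ ?_⟩
  · nlinarith
  · have h11 : (1 - ρ) ^ (C * l) ≤ 1 / (n : ℝ) ^ (K + 8) := by
      have h12 : (1 - ρ) ^ (C * l) ≤ Real.exp (-(((K : ℝ) + 8) * l)) := by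
        calc (1 - ρ) ^ (C * l) ≤ Real.exp (-ρ) ^ (C * l) := by
              apply pow_le_pow_left₀ (by linarith)
              have := Real.add_one_le_exp (-ρ)
              linarith
          _ = Real.exp (-(ρ * C * l)) := by
              rw [← Real.exp_nat_mul]; push_cast; ring_nf
          _ ≤ Real.exp (-(((K : ℝ) + 8) * l)) := by
              apply Real.exp_le_exp.2
              have : ((K : ℝ) + 8) * l ≤ ρ * C * l := by gcongr
              linarith
      refine h12.trans ?_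
      rw [Real.exp_neg, ← one_div]
      exact one_div_le_one_div_of_le (by positivity) hnK
    have h13 : Real.exp (-(ε / 8 * n)) ≤ 1 / (n : ℝ) ^ (K + 8) := by
      rw [Real.exp_neg, ← one_div]
      apply one_div_le_one_div_of_le (by positivity)
      exact hnK.trans (Real.exp_le_exp.2 hl4)
    have h14 : (2 : ℝ) / (n : ℝ) ^ (K + 8) = 1 / (n : ℝ) ^ (K + 8) + 1 / (n : ℝ) ^ (K + 8) := by
      ring
    rw [h14]
    linarith
  · intro A hA
    have h2D : (0 : ℝ) < 2 ^ Dd := by positivity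
    have hApos : (0 : ℝ) < A.card := by
      by_contra hcon
      have h15 : (A.card : ℝ) = 0 := le_antisymm (not_lt.1 hcon) (by positivity)
      rw [h15, zero_mul] at hA
      have : (0 : ℝ) < 2 ^ n := by positivity
      linarith
    have hA0 : A.Nonempty := by
      rw [← Finset.card_pos]
      exact_mod_cast hApos
    have hAlarge : Real.exp (ε / 4 * n) ≤ A.card := by
      have h16 : (2 : ℝ) ^ n ≤ A.card * 2 ^ ((1 - ε / 2) * (n : ℝ)) := by
        refine hA.trans ?_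
        gcongr
        rw [← Real.rpow_natCast 2 Dd]
        exact Real.rpow_le_rpow_of_exponent_le (by norm_num) hDle
      have h17 : (2 : ℝ) ^ (ε / 2 * (n : ℝ)) ≤ A.card := by
        have h18 : (2 : ℝ) ^ n = 2 ^ (ε / 2 * (n : ℝ)) * 2 ^ ((1 - ε / 2) * (n : ℝ)) := by
          rw [← Real.rpow_add (by norm_num), ← Real.rpow_natCast 2 n]
          congr 1; ring
        rw [h18] at h16
        exact le_of_mul_le_mul_right h16 (by positivity)
      refine le_trans ?_ h17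
      rw [Real.rpow_def_of_pos (by norm_num)]
      apply Real.exp_le_exp.2
      have h19 : (1 / 2 : ℝ) ≤ Real.log 2 := by
        have := Real.log_two_gt_d9; linarith
      have h20 : (0 : ℝ) ≤ ε / 2 * n := by positivity
      nlinarith
    refine card_heavy_of (a := 1 - ρ) (b := Real.exp (-(ε / 8 * n))) (by positivity) (by omega)
      (by linarith) A hA0 ?_
    intro x _
    have h21 : ((A.filter fun y => (1 - ρ) * n ≤ agree x y).card : ℝ) ≤
        Real.exp (ε / 2 * n / 4) := by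
      refine le_trans ?_ (hρ n x)
      exact_mod_cast card_le_card (filter_subset_filter _ (subset_univ _))
    refine h21.trans ?_
    calc Real.exp (ε / 2 * n / 4) = Real.exp (-(ε / 8 * n)) * Real.exp (ε / 4 * n) := by
          rw [← Real.exp_add]; congr 1; ring
      _ ≤ Real.exp (-(ε / 8 * n)) * A.card := by gcongr

end Pool.Agent.MP_e81270_lc.Space
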