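import Pool.Agent.Lib.MP_e81270_lc_Space.Defs

/-!
# The second moment bound for random clauses
-/

namespace Pool.Agent.MP_e81270_lc.Space

open Finset

/-- The assignment `x` falsifies the clause `C`. -/
def Fals {n w : ℕ} (C : Clause n w) (x : Fin n → Bool) : Prop := ∀ j, x (C.1 j) = !(C.2 j)

instance {n w : ℕ} (C : Clause n w) (x : Fin n → Bool) : Decidable (Fals C x) := by
  unfold Fals; infer_instance

/-- number of coordinates where `x` and `y` agree -/
def agree {n : ℕ} (x y : Fin n → Bool) : ℕ := (univ.filter fun i => x i = y i).card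

theorem agree_le {n : ℕ} (x y : Fin n → Bool) : agree x y ≤ n := by
  unfold agree
  exact (card_filter_le _ _).trans (by simp)

theorem card_clause (n w : ℕ) : Fintype.card (Clause n w) = n.descFactorial w * 2 ^ w := by
  simp [Clause, Fintype.card_prod, Fintype.card_embedding_eq]

/-- the clause falsified by `x` with variables `V` -/
def falsOf {n w : ℕ} (x : Fin n → Bool) (V : Fin w ↪ Fin n) : Clause n w := (V, fun j => !(x (V j)))

theorem fals_iff {n w : ℕ} (C : Clause n w) (x : Fin n → Bool) :
    Fals C x ↔ C = falsOf x C.1 := by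
  constructor
  · intro h
    apply Prod.ext
    · rfl
    · funext j
      simp [falsOf, h j]
  · intro h j
    have := congrFun (congrArg Prod.snd h) j
    simp only [falsOf] at this
    rw [this]; simp

theorem card_fals {n w : ℕ} (x : Fin n → Bool) :
    (univ.filter fun C : Clause n w => Fals C x).card = n.descFactorial w := by
  have : (univ.filter fun C : Clause n w => Fals C x) = univ.image (falsOf x) := by
    ext C
    simp only [mem_filter, mem_univ, true_and, mem_image]
    constructor
    · intro h; exact ⟨C.1, ((fals_iff C x).1 h).symm⟩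
    · rintro ⟨V, rfl⟩
      rw [fals_iff]; rfl
  rw [this, card_image_of_injective]
  · simp [Fintype.card_embedding_eq]
  · intro V V' h
    exact congrArg Prod.fst h

theorem card_fals_two {n w : ℕ} (x y : Fin n → Bool) :
    (univ.filter fun C : Clause n w => Fals C x ∧ Fals C y).card ≤ (agree x y).descFactorial w := by
  classical
  have hc : Fintype.card (Fin w ↪ {i // x i = y i}) = (agree x y).descFactorial w := by
    rw [Fintype.card_embedding_eq, Fintype.card_fin, Fintype.card_subtype]
    rfl
  rw [← hc, ← Finset.card_univ]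
  have hsub : (univ.filter fun C : Clause n w => Fals C x ∧ Fals C y) ⊆
      univ.image (fun V : Fin w ↪ {i // x i = y i} =>
        falsOf x (V.trans (Function.Embedding.subtype _))) := by
    intro C hC
    simp only [mem_filter, mem_univ, true_and] at hC
    simp only [mem_image, mem_univ, true_and]
    refine ⟨⟨fun j => ⟨C.1 j, by rw [hC.1 j, hC.2 j]⟩, ?_⟩, ?_⟩
    · intro a b hab
      have := congrArg Subtype.val hab
      exact C.1.injective this
    · exact ((fals_iff C x).1 hC.1).symm
  exact (card_le_card hsub).trans card_image_le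

theorem descFactorial_le (a n w : ℕ) (h : a ≤ n) :
    (a.descFactorial w : ℝ) ≤ ((a : ℝ) / n) ^ w * n.descFactorial w := by
  rcases Nat.eq_zero_or_pos n with hn | hn
  · subst hn
    obtain rfl : a = 0 := by omega
    cases w <;> simp
  induction w with
  | zero => simp
  | succ w ih =>
    rw [Nat.descFactorial_succ, Nat.descFactorial_succ, pow_succ]
    push_cast
    rcases le_or_gt a w with haw | haw
    · rw [Nat.sub_eq_zero_of_le haw]
      push_cast
      rw [zero_mul]
      positivity
    · have h1 : ((a - w : ℕ) : ℝ) ≤ (a : ℝ) / n * ((n - w : ℕ) : ℝ) := by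
        rw [Nat.cast_sub haw.le, Nat.cast_sub (haw.le.trans h), div_mul_eq_mul_div,
          le_div_iff₀ (by exact_mod_cast hn)]
        have : (a : ℝ) ≤ n := by exact_mod_cast h
        have hw : (0 : ℝ) ≤ w := by positivity
        nlinarith
      calc ((a - w : ℕ) : ℝ) * (a.descFactorial w : ℝ)
          ≤ ((a : ℝ) / n * ((n - w : ℕ) : ℝ)) * (((a : ℝ) / n) ^ w * n.descFactorial w) := by
            apply mul_le_mul h1 ih (by positivity) (by positivity)
        _ = _ := by ring

/-- exponential moment of the agreement -/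
theorem sum_exp_agree {n : ℕ} (x : Fin n → Bool) (u : ℝ) :
    ∑ y : Fin n → Bool, Real.exp (u * agree x y) = (1 + Real.exp u) ^ n := by
  have h1 : ∀ y : Fin n → Bool, Real.exp (u * agree x y) =
      ∏ i, (if x i = y i then Real.exp u else 1) := by
    intro y
    rw [Finset.prod_ite, Finset.prod_const, Finset.prod_const_one, mul_one, ← Real.exp_nat_mul,
      mul_comm]
    rfl
  simp_rw [h1]
  have h2 := Finset.prod_univ_sum (fun _ : Fin n => (univ : Finset Bool))
    (fun i b => if x i = b then Real.exp u else 1)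
  rw [Fintype.piFinset_univ] at h2
  rw [← h2]
  have h3 : ∀ i : Fin n, ∑ b : Bool, (if x i = b then Real.exp u else 1) = 1 + Real.exp u := by
    intro i
    rcases h : x i <;> simp [add_comm]
  simp_rw [h3]
  simp

theorem card_ball {n : ℕ} (x : Fin n → Bool) (δ : ℝ) (hδ : 0 ≤ δ) :
    ((univ.filter fun y : Fin n → Bool => (1 + δ) * n / 2 ≤ agree x y).card : ℝ) ≤
      2 ^ n * Real.exp (-(δ ^ 2 * n / 2)) := by
  have h1 : ((univ.filter fun y : Fin n → Bool => (1 + δ) * n / 2 ≤ agree x y).card : ℝ) *
      Real.exp (2 * δ * ((1 + δ) * n / 2)) ≤ (1 + Real.exp (2 * δ)) ^ n := by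
    rw [← sum_exp_agree x (2 * δ), ← nsmul_eq_mul, ← Finset.sum_const]
    calc _ ≤ ∑ y ∈ univ.filter fun y : Fin n → Bool => (1 + δ) * n / 2 ≤ agree x y,
          Real.exp (2 * δ * agree x y) := by
            apply Finset.sum_le_sum
            intro y hy
            simp only [mem_filter, mem_univ, true_and] at hy
            apply Real.exp_le_exp.2
            exact mul_le_mul_of_nonneg_left hy (by positivity)
      _ ≤ _ := Finset.sum_le_sum_of_subset_of_nonneg (filter_subset _ _)
            (fun _ _ _ => (Real.exp_pos _).le)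
  have h2 : 1 + Real.exp (2 * δ) = 2 * Real.cosh δ * Real.exp δ := by
    rw [Real.cosh_eq]
    have : Real.exp (2 * δ) = Real.exp δ * Real.exp δ := by rw [← Real.exp_add]; ring_nf
    have h3 : Real.exp (-δ) * Real.exp δ = 1 := by rw [← Real.exp_add]; simp
    rw [this]
    linear_combination -h3
  have h3 : Real.cosh δ ≤ Real.exp (δ ^ 2 / 2) := Real.cosh_le_exp_half_sq δ
  have h4 : (1 + Real.exp (2 * δ)) ^ n ≤ 2 ^ n * Real.exp (n * (δ ^ 2 / 2)) * Real.exp (n * δ) := by
    rw [h2, mul_pow, mul_pow, Real.exp_nat_mul, Real.exp_nat_mul]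
    gcongr
  have h5 := h1.trans h4
  have h6 : 0 < Real.exp (2 * δ * ((1 + δ) * n / 2)) := Real.exp_pos _
  rw [← le_div_iff₀ h6] at h5
  refine h5.trans (le_of_eq ?_)
  rw [div_eq_iff h6.ne', mul_assoc, mul_assoc, ← Real.exp_add, ← Real.exp_add]
  congr 2
  ring

/-- the points of `A` at which the clause `C` is false -/
def cut {n w : ℕ} (A : Finset (Fin n → Bool)) (C : Clause n w) : Finset (Fin n → Bool) :=
  A.filter fun x => Fals C x

theorem second_moment {n w D : ℕ} {δ : ℝ} (hδ : 0 < δ) (hn : 0 < n)
    (A : Finset (Fin n → Bool)) (hA : (2 : ℝ) ^ n ≤ A.card * 2 ^ D)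
    (hD : 2 * (D : ℝ) ≤ δ ^ 2 * n / 2) (hw : w ≤ D) :
    ∑ C : Clause n w, ((cut A C).card : ℝ) ^ 2 ≤
      Fintype.card (Clause n w) * (A.card : ℝ) ^ 2 * (((1 + δ) ^ w + 1) / 4 ^ w) := by
  classical
  have hsq : ∀ C : Clause n w, ((cut A C).card : ℝ) ^ 2 =
      ∑ x ∈ A, ∑ y ∈ A, if Fals C x ∧ Fals C y then (1 : ℝ) else 0 := by
    intro C
    have : ((cut A C).card : ℝ) = ∑ x ∈ A, if Fals C x then (1 : ℝ) else 0 := by
      rw [cut, Finset.sum_boole]
    rw [this, sq, Finset.sum_mul_sum]
    refine Finset.sum_congr rfl fun x _ => Finset.sum_congr rfl fun y _ => ?_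
    by_cases h1 : Fals C x <;> by_cases h2 : Fals C y <;> simp [h1, h2]
  simp_rw [hsq]
  rw [Finset.sum_comm]
  have hswap : ∀ x ∈ A, ∑ C : Clause n w, ∑ y ∈ A, (if Fals C x ∧ Fals C y then (1 : ℝ) else 0) =
      ∑ y ∈ A, ((univ.filter fun C : Clause n w => Fals C x ∧ Fals C y).card : ℝ) := by
    intro x _
    rw [Finset.sum_comm]
    refine Finset.sum_congr rfl fun y _ => ?_
    rw [Finset.sum_boole]
  rw [Finset.sum_congr rfl hswap]
  have hkey : ∀ x ∈ A, ∑ y ∈ A,
      ((univ.filter fun C : Clause n w => Fals C x ∧ Fals C y).card : ℝ) ≤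
      n.descFactorial w * (A.card * (((1 + δ) ^ w + 1) / 2 ^ w)) := by
    intro x _
    have hb : ∀ y ∈ A, ((univ.filter fun C : Clause n w => Fals C x ∧ Fals C y).card : ℝ) ≤
        n.descFactorial w * (((1 + δ) / 2) ^ w +
          if (1 + δ) * n / 2 ≤ agree x y then (1 : ℝ) else 0) := by
      intro y _
      have h1 : ((univ.filter fun C : Clause n w => Fals C x ∧ Fals C y).card : ℝ) ≤
          ((agree x y).descFactorial w : ℝ) := by exact_mod_cast card_fals_two x y
      refine h1.trans ((descFactorial_le _ n w (agree_le x y)).trans ?_)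
      rw [mul_comm]
      refine mul_le_mul_of_nonneg_left ?_ (by positivity)
      have hn' : (0 : ℝ) < n := by exact_mod_cast hn
      split_ifs with h
      · have : ((agree x y : ℝ) / n) ^ w ≤ 1 := by
          apply pow_le_one₀ (by positivity)
          rw [div_le_one hn']
          exact_mod_cast agree_le x y
        have h2 : (0 : ℝ) ≤ ((1 + δ) / 2) ^ w := by positivity
        linarith
      · rw [add_zero]
        apply pow_le_pow_left₀ (by positivity)
        rw [div_le_iff₀ hn']
        push Not at h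
        linarith
    refine (Finset.sum_le_sum hb).trans ?_
    rw [← Finset.mul_sum, Finset.sum_add_distrib, Finset.sum_const, nsmul_eq_mul, Finset.sum_boole]
    refine mul_le_mul_of_nonneg_left ?_ (by positivity)
    have h3 : ((A.filter fun y => (1 + δ) * n / 2 ≤ agree x y).card : ℝ) ≤
        A.card * (1 / 2 ^ w) := by
      have h4 : ((A.filter fun y => (1 + δ) * n / 2 ≤ agree x y).card : ℝ) ≤
          2 ^ n * Real.exp (-(δ ^ 2 * n / 2)) := by
        refine le_trans ?_ (card_ball x δ hδ.le)
        exact_mod_cast card_le_card (filter_subset_filter _ (subset_univ _))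
      refine h4.trans ?_
      have h5 : Real.exp (-(δ ^ 2 * n / 2)) ≤ 1 / (2 ^ D * 2 ^ w) := by
        rw [← pow_add]
        have h6 : Real.exp (-(δ ^ 2 * n / 2)) ≤ Real.exp (-(2 * (D : ℝ))) := by
          apply Real.exp_le_exp.2; linarith
        refine h6.trans ?_
        rw [Real.exp_neg, ← one_div]
        apply one_div_le_one_div_of_le (by positivity)
        have h7 : (2 : ℝ) ≤ Real.exp 1 := by
          have := Real.add_one_le_exp (1 : ℝ); linarith
        calc (2 : ℝ) ^ (D + w) ≤ 2 ^ (2 * D) := pow_le_pow_right₀ (by norm_num) (by omega)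
          _ ≤ (Real.exp 1) ^ (2 * D) := pow_le_pow_left₀ (by norm_num) h7 _
          _ = Real.exp (2 * (D : ℝ)) := by
            rw [← Real.exp_nat_mul]; push_cast; ring_nf
      calc (2 : ℝ) ^ n * Real.exp (-(δ ^ 2 * n / 2))
          ≤ (A.card * 2 ^ D) * (1 / (2 ^ D * 2 ^ w)) := by
            apply mul_le_mul hA h5 (Real.exp_pos _).le (by positivity)
        _ = A.card * (1 / 2 ^ w) := by field_simp
    calc (A.card : ℝ) * ((1 + δ) / 2) ^ w +
          ((A.filter fun y => (1 + δ) * n / 2 ≤ agree x y).card : ℝ)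
        ≤ A.card * ((1 + δ) / 2) ^ w + A.card * (1 / 2 ^ w) := by linarith
      _ = A.card * (((1 + δ) ^ w + 1) / 2 ^ w) := by
          rw [div_pow]; ring
  refine (Finset.sum_le_sum hkey).trans ?_
  rw [Finset.sum_const, nsmul_eq_mul, card_clause]
  apply le_of_eq
  push_cast
  have h4 : (4 : ℝ) ^ w = 2 ^ w * 2 ^ w := by rw [← mul_pow]; norm_num
  rw [h4]
  field_simp

end Pool.Agent.MP_e81270_lc.Space
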