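import Pool.Agent.Lib.MP_e81270_lc_Space.Moment

/-!
# Counting CNFs with many heavy clauses
-/

namespace Pool.Agent.MP_e81270_lc.Space

open Finset

theorem holds_iff {n w : ℕ} (v : ℕ → Bool) (C : Clause n w) :
    Holds v C ↔ ¬ Fals C (fun i : Fin n => v i) := by
  unfold Holds Fals
  push Not
  refine exists_congr fun j => ?_
  cases v (C.1 j) <;> cases C.2 j <;> simp

theorem card_cut_univ {n w : ℕ} (C : Clause n w) :
    (cut univ C).card * 2 ^ w ≤ 2 ^ n := by
  classical
  have h1 : (cut univ C).card * 2 ^ w = ((cut univ C) ×ˢ (univ : Finset (Fin w → Bool))).card := by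
    rw [card_product]; simp
  have h2 : (2 : ℕ) ^ n = (univ : Finset (Fin n → Bool)).card := by simp
  rw [h1, h2]
  refine card_le_card_of_injOn
    (fun p => fun i => if h : ∃ j, C.1 j = i then p.2 h.choose else p.1 i) (fun _ _ => mem_univ _) ?_
  rintro ⟨x, s⟩ hx ⟨x', s'⟩ hx' h
  simp only [coe_product, Set.mem_prod, cut, coe_filter, mem_univ, true_and, Set.mem_ofPred_eq] at hx hx'
  have hv : ∀ i, (if h : ∃ j, C.1 j = i then s h.choose else x i) =
      (if h : ∃ j, C.1 j = i then s' h.choose else x' i) := fun i => congrFun h i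
  have hs : s = s' := by
    funext j
    have := hv (C.1 j)
    have he : ∃ k, C.1 k = C.1 j := ⟨j, rfl⟩
    rw [dif_pos he, dif_pos he] at this
    have hj : he.choose = j := C.1.injective he.choose_spec
    rwa [hj] at this
  have hxx : x = x' := by
    funext i
    by_cases he : ∃ j, C.1 j = i
    · obtain ⟨j, rfl⟩ := he
      rw [hx.1 j, hx'.1 j]
    · have := hv i
      rwa [dif_neg he, dif_neg he] at this
  rw [hs, hxx]

/-- the clauses which are false on at least a fraction `θ` of `A` -/
noncomputable def heavy {n : ℕ} (w : ℕ) (θ : ℝ) (A : Finset (Fin n → Bool)) :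
    Finset (Clause n w) := by
  classical
  exact univ.filter fun C => θ * A.card ≤ (cut A C).card

theorem mem_heavy {n w : ℕ} {θ : ℝ} {A : Finset (Fin n → Bool)} {C : Clause n w} :
    C ∈ heavy w θ A ↔ θ * A.card ≤ (cut A C).card := by
  classical
  simp [heavy]

theorem card_heavy {n w D : ℕ} {δ θ : ℝ} (hδ : 0 < δ) (hθ : 0 < θ) (hn : 0 < n)
    (A : Finset (Fin n → Bool)) (hA : (2 : ℝ) ^ n ≤ A.card * 2 ^ D)
    (hD : 2 * (D : ℝ) ≤ δ ^ 2 * n / 2) (hw : w ≤ D) :
    ((heavy w θ A).card : ℝ) * θ ^ 2 ≤
      Fintype.card (Clause n w) * (((1 + δ) ^ w + 1) / 4 ^ w) := by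
  have h0 : (0 : ℝ) < A.card := by
    by_contra h
    have h1 : (A.card : ℝ) = 0 := le_antisymm (not_lt.1 h) (by positivity)
    rw [h1, zero_mul] at hA
    have : (0 : ℝ) < 2 ^ n := by positivity
    linarith
  have h1 := second_moment (w := w) hδ hn A hA hD hw
  have h2 : ((heavy w θ A).card : ℝ) * (θ * A.card) ^ 2 ≤
      ∑ C : Clause n w, ((cut A C).card : ℝ) ^ 2 := by
    rw [← nsmul_eq_mul, ← Finset.sum_const]
    calc ∑ C ∈ heavy w θ A, (θ * (A.card : ℝ)) ^ 2
        ≤ ∑ C ∈ heavy w θ A, ((cut A C).card : ℝ) ^ 2 := by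
          apply Finset.sum_le_sum
          intro C hC
          apply pow_le_pow_left₀ (by positivity)
          exact mem_heavy.1 hC
      _ ≤ _ := Finset.sum_le_sum_of_subset_of_nonneg (subset_univ _) (fun _ _ _ => by positivity)
  have h3 := h2.trans h1
  have h4 : (0 : ℝ) < (A.card : ℝ) ^ 2 := by positivity
  rw [mul_pow] at h3
  have h5 : ((heavy w θ A).card : ℝ) * θ ^ 2 * (A.card : ℝ) ^ 2 ≤
      Fintype.card (Clause n w) * (((1 + δ) ^ w + 1) / 4 ^ w) * (A.card : ℝ) ^ 2 := by
    nlinarith [h3]
  exact le_of_mul_le_mul_right h5 h4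

/-- number of the clauses of `F` in `H` -/
def hits {α : Type*} [DecidableEq α] {m : ℕ} (H : Finset α) (F : Fin m → α) : ℕ :=
  (univ.filter fun j => F j ∈ H).card

theorem card_hits {α : Type*} [DecidableEq α] [Fintype α] {m M : ℕ} (H : Finset α) :
    ((univ.filter fun F : Fin m → α => M ≤ hits H F).card : ℝ) * 4 ^ M ≤
      (Fintype.card α + 3 * H.card : ℝ) ^ m := by
  have h1 : ∑ F : Fin m → α, ∏ j, (if F j ∈ H then (4 : ℝ) else 1) =
      (Fintype.card α + 3 * H.card : ℝ) ^ m := by
    have h2 := Finset.prod_univ_sum (fun _ : Fin m => (univ : Finset α))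
      (fun _ C => if C ∈ H then (4 : ℝ) else 1)
    rw [Fintype.piFinset_univ] at h2
    rw [← h2]
    have h3 : ∑ C : α, (if C ∈ H then (4 : ℝ) else 1) = Fintype.card α + 3 * H.card := by
      have : ∀ C : α, (if C ∈ H then (4 : ℝ) else 1) = 1 + (if C ∈ H then 3 else 0) := by
        intro C; split_ifs <;> norm_num
      simp_rw [this]
      rw [Finset.sum_add_distrib, Finset.sum_ite_mem]
      simp [mul_comm]
    rw [h3]
    simp
  rw [← h1, ← nsmul_eq_mul, ← Finset.sum_const]
  calc _ ≤ ∑ F ∈ univ.filter fun F : Fin m → α => M ≤ hits H F,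
        ∏ j, (if F j ∈ H then (4 : ℝ) else 1) := by
          apply Finset.sum_le_sum
          intro F hF
          simp only [mem_filter, mem_univ, true_and] at hF
          rw [Finset.prod_ite, Finset.prod_const, Finset.prod_const_one, mul_one]
          exact pow_le_pow_right₀ (by norm_num) hF
    _ ≤ _ := by
          apply Finset.sum_le_sum_of_subset_of_nonneg (filter_subset _ _)
          intro F _ _
          apply Finset.prod_nonneg
          intro j _
          split_ifs <;> norm_num

theorem card_sat {n w m : ℕ} :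
    ((Nat.card {F : Fin m → Clause n w // ¬ Unsat F} : ℕ) : ℝ) ≤
      2 ^ n * ((Fintype.card (Clause n w) : ℝ) - n.descFactorial w) ^ m := by
  classical
  have hG : ∀ x : Fin n → Bool, ((univ.filter fun C : Clause n w => ¬ Fals C x).card : ℝ) =
      (Fintype.card (Clause n w) : ℝ) - n.descFactorial w := by
    intro x
    have := Finset.card_filter_add_card_filter_not (s := (univ : Finset (Clause n w)))
      (fun C : Clause n w => Fals C x)
    rw [card_fals] at this
    rw [Finset.card_univ] at this
    rw [← this]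
    push_cast
    ring
  have h1 : Nat.card {F : Fin m → Clause n w // ¬ Unsat F} ≤
      ((univ : Finset (Fin n → Bool)).biUnion fun x =>
        Fintype.piFinset fun _ : Fin m => univ.filter fun C : Clause n w => ¬ Fals C x).card := by
    rw [Nat.card_eq_fintype_card, Fintype.card_subtype]
    apply card_le_card
    intro F hF
    simp only [mem_filter, mem_univ, true_and, Unsat] at hF
    push Not at hF
    obtain ⟨v, hv⟩ := hF
    simp only [mem_biUnion, mem_univ, true_and]
    refine ⟨fun i => v i, ?_⟩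
    rw [Fintype.mem_piFinset]
    intro j
    simp only [mem_filter, mem_univ, true_and]
    exact (holds_iff v (F j)).1 (hv j)
  have h2 := h1.trans card_biUnion_le
  have h3 : ((Nat.card {F : Fin m → Clause n w // ¬ Unsat F} : ℕ) : ℝ) ≤
      ∑ x : Fin n → Bool, ((Fintype.piFinset fun _ : Fin m =>
        univ.filter fun C : Clause n w => ¬ Fals C x).card : ℝ) := by exact_mod_cast h2
  refine h3.trans (le_of_eq ?_)
  have h4 : ∀ x : Fin n → Bool, ((Fintype.piFinset fun _ : Fin m =>
        univ.filter fun C : Clause n w => ¬ Fals C x).card : ℝ) =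
        ((Fintype.card (Clause n w) : ℝ) - n.descFactorial w) ^ m := by
    intro x
    rw [Fintype.card_piFinset]
    push_cast
    rw [Finset.prod_congr rfl (fun _ _ => hG x)]
    simp
  rw [Finset.sum_congr rfl (fun x _ => h4 x)]
  simp

end Pool.Agent.MP_e81270_lc.Space
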